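import Mathlib
import Pool.Agent.H129.CX.Moments
import Pool.Agent.H129.CX.Exists

/-!
A simplicial `2`-complex `C` with `a(C) = 3` and `b(C) = 5`.

The complex. Let `g` be a proper colouring of the cells of an `N × N` square by `3N` colours (cells
in one row or one column get different colours). The triangles `{a, b, g(a, b)}` (one vertex for each
row, each column and each colour) pairwise share at most one vertex, so that their union embeds in
`ℝ³`, whatever `g` is (`CC_a_upper`). The boundary of a tetrahedron is added, so that the complex does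
not embed in the plane (`CC_a_lower`).

A linear realisation in `ℝ⁴` would place the `5N` vertices so that vertex disjoint triangles do not
meet. There are at most `N^(O(N))` order types of `5N` points of `ℝ⁴` in general position (Warren),
and for each of them the number of colourings `g` compatible with it is at most
`N^(O(q)) (3 N / 4)^(N²)`: by van Kampen and Flores the triangles of `K_{3,3,3}` cannot be placed
without a meeting pair, and a container argument applies (`Count.fam_le`). But there are at least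
`N^(N²)` proper colourings, so that for large `N` some colouring cannot be realised (`exists_bad`).
-/

set_option autoImplicit false
set_option linter.unusedSectionVars false
set_option linter.unusedVariables false
set_option linter.style.longLine false

namespace Pool.Agent.Results.MP_c5a51c_co.SimplicialCounterexample

/-! ### The definitions used in the statement -/

/-- A convex polytope in `ℝⁿ`: the convex hull of a nonempty finite set of points. -/
def IsPolytope {n : ℕ} (P : Set (EuclideanSpace ℝ (Fin n))) : Prop :=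
  ∃ s : Finset (EuclideanSpace ℝ (Fin n)), s.Nonempty ∧ P = convexHull ℝ (s : Set _)

/-- `F` is a (nonempty) face of `P`: it is nonempty and it is the set of the points of `P` at which
some continuous linear functional attains its maximum over `P` (`P` itself is a face of `P`). For
polytopes these are exactly the nonempty faces. -/
def IsFace {E : Type} [NormedAddCommGroup E] [NormedSpace ℝ E] (F P : Set E) : Prop :=
  F.Nonempty ∧ IsExposed ℝ P F

/-- A complex in `ℝⁿ`: a finite collection of convex polytopes such that every (nonempty) face of a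
member is a member, and such that any two members which meet do so in a common face of both. (The
empty face is not listed among the members.) -/
structure Cplx (n : ℕ) where
  members : Set (Set (EuclideanSpace ℝ (Fin n)))
  finite : members.Finite
  polytope : ∀ P ∈ members, IsPolytope P
  face_mem : ∀ P ∈ members, ∀ F, IsFace F P → F ∈ members
  inter : ∀ P ∈ members, ∀ Q ∈ members, (P ∩ Q).Nonempty → IsFace (P ∩ Q) P ∧ IsFace (P ∩ Q) Q

/-- A complex is a `2`-complex if all its members have dimension at most two. -/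
def IsTwoComplex {n : ℕ} (C : Cplx n) : Prop :=
  ∀ P ∈ C.members, Module.finrank ℝ (vectorSpan ℝ P) ≤ 2

/-- A complex is simplicial if all its members are simplices: each member is the convex hull of a
nonempty affinely independent finite set of points. -/
def IsSimplicial {n : ℕ} (C : Cplx n) : Prop :=
  ∀ P ∈ C.members, ∃ s : Finset (EuclideanSpace ℝ (Fin n)), s.Nonempty ∧
    AffineIndependent ℝ ((↑) : s → EuclideanSpace ℝ (Fin n)) ∧ P = convexHull ℝ (s : Set _)

/-- Combinatorial equivalence: a bijection of the members preserving inclusion in both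
directions. -/
def CombEquiv {m n : ℕ} (C : Cplx m) (D : Cplx n) : Prop :=
  ∃ e : C.members ≃ D.members, ∀ P Q : C.members, P.1 ⊆ Q.1 ↔ (e P).1 ⊆ (e Q).1

/-- `set C`, the union of all members. -/
def Cplx.support {n : ℕ} (C : Cplx n) : Set (EuclideanSpace ℝ (Fin n)) := ⋃₀ C.members

/-- `a(C)`: the least `m` such that `ℝᵐ` contains a subset homeomorphic to `set C`. -/
noncomputable def aDim {n : ℕ} (C : Cplx n) : ℕ :=
  sInf {m : ℕ | ∃ T : Set (EuclideanSpace ℝ (Fin m)), Nonempty (C.support ≃ₜ T)}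

/-- `b(C)`: the least `m` such that `ℝᵐ` contains a complex combinatorially equivalent to `C`. -/
noncomputable def bDim {n : ℕ} (C : Cplx n) : ℕ :=
  sInf {m : ℕ | ∃ D : Cplx m, CombEquiv C D}

section part0

open Set

/-! ### Convex hulls of indexed families -/

variable {ι E : Type} [DecidableEq ι] [NormedAddCommGroup E] [NormedSpace ℝ E]

/-- convex hull of the points `p i`, `i ∈ s` -/
def hull (p : ι → E) (s : Finset ι) : Set E := convexHull ℝ (p '' (s : Set ι))

lemma mem_hull_iff (p : ι → E) (s : Finset ι) (z : E) :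
    z ∈ hull p s ↔ ∃ w : ι → ℝ, (∀ i ∈ s, 0 ≤ w i) ∧ ∑ i ∈ s, w i = 1 ∧
      ∑ i ∈ s, w i • p i = z := by
  constructor
  · intro hz
    have hconv : Convex ℝ {z : E | ∃ w : ι → ℝ, (∀ i ∈ s, 0 ≤ w i) ∧ ∑ i ∈ s, w i = 1 ∧
      ∑ i ∈ s, w i • p i = z} := by
      rintro x ⟨w, hw0, hw1, rfl⟩ y ⟨w', hw0', hw1', rfl⟩ a b ha hb hab
      refine ⟨fun i => a * w i + b * w' i, ?_, ?_, ?_⟩
      · intro i hi
        exact add_nonneg (mul_nonneg ha (hw0 i hi)) (mul_nonneg hb (hw0' i hi))
      · rw [Finset.sum_add_distrib, ← Finset.mul_sum, ← Finset.mul_sum, hw1, hw1']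
        linarith
      · rw [Finset.smul_sum, Finset.smul_sum, ← Finset.sum_add_distrib]
        refine Finset.sum_congr rfl (fun i _ => ?_)
        rw [add_smul, mul_smul, mul_smul]
    have hsub : p '' (s : Set ι) ⊆ {z : E | ∃ w : ι → ℝ, (∀ i ∈ s, 0 ≤ w i) ∧ ∑ i ∈ s, w i = 1 ∧
      ∑ i ∈ s, w i • p i = z} := by
      rintro _ ⟨i, hi, rfl⟩
      have hi' : i ∈ s := hi
      refine ⟨fun j => if j = i then 1 else 0, ?_, ?_, ?_⟩
      · intro j _
        dsimp only
        split_ifs <;> norm_num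
      · rw [Finset.sum_ite_eq', if_pos hi']
      · simp only [ite_smul, one_smul, zero_smul]
        rw [Finset.sum_ite_eq', if_pos hi']
    exact convexHull_min hsub hconv hz
  · rintro ⟨w, hw0, hw1, rfl⟩
    exact (convex_convexHull ℝ _).sum_mem hw0 hw1
      (fun i hi => subset_convexHull ℝ _ ⟨i, hi, rfl⟩)

lemma convex_hull (p : ι → E) (s : Finset ι) : Convex ℝ (hull p s) := convex_convexHull ℝ _

lemma vertex_mem_hull (p : ι → E) {s : Finset ι} {i : ι} (hi : i ∈ s) : p i ∈ hull p s :=
  subset_convexHull ℝ _ ⟨i, hi, rfl⟩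

lemma hull_mono (p : ι → E) {s t : Finset ι} (h : s ⊆ t) : hull p s ⊆ hull p t :=
  convexHull_mono (Set.image_mono (by exact_mod_cast h))

lemma hull_singleton (p : ι → E) (i : ι) : hull p {i} = {p i} := by
  unfold hull
  rw [Finset.coe_singleton, Set.image_singleton, convexHull_singleton]

lemma hull_empty (p : ι → E) : hull p ∅ = ∅ := by
  unfold hull
  rw [Finset.coe_empty, Set.image_empty, convexHull_empty]

lemma hull_nonempty {p : ι → E} {s : Finset ι} {z : E} (h : z ∈ hull p s) : s.Nonempty := by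
  rw [Finset.nonempty_iff_ne_empty]
  rintro rfl
  rw [hull_empty] at h
  exact h

lemma isCompact_hull (p : ι → E) (s : Finset ι) : IsCompact (hull p s) :=
  (s.finite_toSet.image p).isCompact_convexHull ℝ

lemma isClosed_hull (p : ι → E) (s : Finset ι) : IsClosed (hull p s) := (isCompact_hull p s).isClosed

/-- a linear functional which is at most `c` on the vertices is at most `c` on the hull -/
lemma le_on_hull {p : ι → E} {s : Finset ι} (f : E →ₗ[ℝ] ℝ) (c : ℝ) (h : ∀ i ∈ s, f (p i) ≤ c)
    {z : E} (hz : z ∈ hull p s) : f z ≤ c := by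
  obtain ⟨w, hw0, hw1, rfl⟩ := (mem_hull_iff p s z).mp hz
  rw [map_sum]
  calc ∑ i ∈ s, f (w i • p i) = ∑ i ∈ s, w i * f (p i) := by
        refine Finset.sum_congr rfl (fun i _ => ?_)
        rw [map_smul, smul_eq_mul]
    _ ≤ ∑ i ∈ s, w i * c := Finset.sum_le_sum (fun i hi => mul_le_mul_of_nonneg_left (h i hi) (hw0 i hi))
    _ = c := by rw [← Finset.sum_mul, hw1, one_mul]

/-- where a functional attains its maximum on the vertices of a hull -/
lemma mem_hull_of_eq {p : ι → E} {s t : Finset ι} (hts : t ⊆ s) (f : E →ₗ[ℝ] ℝ) (c : ℝ)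
    (h : ∀ i ∈ s, i ∉ t → f (p i) < c) (ht : ∀ i ∈ t, f (p i) = c)
    {z : E} (hz : z ∈ hull p s) (hfz : f z = c) : z ∈ hull p t := by
  obtain ⟨w, hw0, hw1, hwz⟩ := (mem_hull_iff p s z).mp hz
  have h1 : ∑ i ∈ s, w i * (c - f (p i)) = 0 := by
    have : ∑ i ∈ s, w i * f (p i) = c := by
      rw [← hfz, ← hwz, map_sum]
      refine Finset.sum_congr rfl (fun i _ => ?_)
      rw [map_smul, smul_eq_mul]
    simp_rw [mul_sub]
    rw [Finset.sum_sub_distrib, ← Finset.sum_mul, hw1, this]
    ring
  have h2 : ∀ i ∈ s, w i * (c - f (p i)) = 0 := by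
    rw [Finset.sum_eq_zero_iff_of_nonneg] at h1
    · exact h1
    · intro i hi
      apply mul_nonneg (hw0 i hi)
      by_cases hit : i ∈ t
      · rw [ht i hit]; linarith
      · linarith [h i hi hit]
  have h3 : ∀ i ∈ s, i ∉ t → w i = 0 := by
    intro i hi hit
    rcases mul_eq_zero.mp (h2 i hi) with h4 | h4
    · exact h4
    · exact absurd h4 (by linarith [h i hi hit])
  rw [mem_hull_iff]
  refine ⟨w, fun i hi => hw0 i (hts hi), ?_, ?_⟩
  · rw [← hw1]
    exact Finset.sum_subset hts (fun i hi hit => h3 i hi hit)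
  · rw [← hwz]
    apply Finset.sum_subset hts
    intro i hi hit
    rw [h3 i hi hit, zero_smul]

/-! ### Vertices of polytopes -/

/-- a polytope is the convex hull of those of its points which are faces -/
lemma polytope_vertices (P : Set E) (s : Finset E) (hP : P = convexHull ℝ (s : Set E)) (z : E)
    (hz : z ∈ P) : z ∈ convexHull ℝ {x | IsFace {x} P} := by
  classical
  -- a minimal generating set
  obtain ⟨t, ht1, ht2⟩ : ∃ t : Finset E, P = convexHull ℝ (t : Set E) ∧
      ∀ t' : Finset E, P = convexHull ℝ (t' : Set E) → t.card ≤ t'.card := by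
    have hex : ∃ k : ℕ, ∃ t : Finset E, P = convexHull ℝ (t : Set E) ∧ t.card = k := ⟨_, s, hP, rfl⟩
    obtain ⟨t, ht, htk⟩ := Nat.find_spec hex
    refine ⟨t, ht, fun t' ht' => ?_⟩
    rw [htk]
    exact Nat.find_min' hex ⟨t', ht', rfl⟩
  have hface : ∀ v ∈ t, IsFace {v} P := by
    intro v hv
    have hnot : v ∉ convexHull ℝ ((t.erase v : Finset E) : Set E) := by
      intro hmem
      have h1 : P = convexHull ℝ ((t.erase v : Finset E) : Set E) := by
        rw [ht1]
        apply Set.Subset.antisymm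
        · apply convexHull_min _ (convex_convexHull ℝ _)
          intro x hx
          by_cases hxv : x = v
          · rw [hxv]; exact hmem
          · exact subset_convexHull ℝ _ (Finset.mem_coe.mpr (Finset.mem_erase.mpr ⟨hxv, hx⟩))
        · exact convexHull_mono (by exact_mod_cast Finset.erase_subset v t)
      have h2 := ht2 _ h1
      rw [Finset.card_erase_of_mem hv] at h2
      have h3 := Finset.card_pos.mpr ⟨v, hv⟩
      omega
    have hclosed : IsClosed (convexHull ℝ ((t.erase v : Finset E) : Set E)) :=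
      (t.erase v).finite_toSet.isClosed_convexHull ℝ
    obtain ⟨l, u, hl1, hl2⟩ := geometric_hahn_banach_closed_point (convex_convexHull ℝ _) hclosed hnot
    refine ⟨Set.singleton_nonempty v, fun _ => ⟨l, ?_⟩⟩
    have hlt : ∀ x ∈ t, x ≠ v → l x < l v := fun x hx hxv =>
      (hl1 x (subset_convexHull ℝ _ (Finset.mem_coe.mpr (Finset.mem_erase.mpr ⟨hxv, hx⟩)))).trans hl2
    have hPh : P = hull (id : E → E) t := by
      rw [ht1]; unfold hull; rw [Set.image_id]
    have hvP : v ∈ P := by rw [ht1]; exact subset_convexHull ℝ _ hv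
    apply Set.Subset.antisymm
    · rintro x rfl
      refine ⟨hvP, fun y hy => ?_⟩
      rw [hPh] at hy
      apply le_on_hull (p := (id : E → E)) l.toLinearMap (l x) _ hy
      intro i hi
      by_cases hiv : i = x
      · rw [hiv]; exact le_rfl
      · exact (hlt i hi hiv).le
    · rintro x ⟨hx, hx2⟩
      have h1 : l x = l v := by
        apply le_antisymm _ (hx2 v hvP)
        rw [hPh] at hx
        apply le_on_hull (p := (id : E → E)) l.toLinearMap (l v) _ hx
        intro i hi
        by_cases hiv : i = v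
        · rw [hiv]; exact le_rfl
        · exact (hlt i hi hiv).le
      rw [hPh] at hx
      have h2 := mem_hull_of_eq (p := (id : E → E)) (s := t) (t := {v})
        (Finset.singleton_subset_iff.mpr hv) l.toLinearMap (l v)
        (fun i hi hi2 => hlt i hi (by simpa using hi2)) (by intro i hi; rw [Finset.mem_singleton.mp hi]; rfl)
        hx h1
      rw [hull_singleton] at h2
      exact h2
  have h1 : (t : Set E) ⊆ {x | IsFace {x} P} := fun x hx => hface x hx
  rw [ht1] at hz
  exact convexHull_mono h1 hz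

/-! ### Realisations -/

/-- the points `p` realise the abstract complex `M` -/
structure Rlz (M : Finset (Finset ι)) (p : ι → E) : Prop where
  inj : Function.Injective p
  face : ∀ s ∈ M, ∀ t ∈ M, t ⊆ s → IsFace (hull p t) (hull p s)
  face' : ∀ s ∈ M, ∀ F, IsFace F (hull p s) → ∃ t ∈ M, t ⊆ s ∧ F = hull p t
  inter : ∀ s ∈ M, ∀ t ∈ M, ∀ z, z ∈ hull p s → z ∈ hull p t →
    ∃ r ∈ M, r ⊆ s ∧ r ⊆ t ∧ z ∈ hull p r

/-- every complex combinatorially equivalent to the complex given by `M` and `q` is a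
realisation of `M` -/
lemma real_of_equiv {ι : Type} [DecidableEq ι] {m n : ℕ} (M : Finset (Finset ι))
    (q : ι → EuclideanSpace ℝ (Fin m)) (hne : ∀ s ∈ M, s.Nonempty) (hsing : ∀ i : ι, {i} ∈ M)
    (hsub : ∀ s ∈ M, ∀ t ∈ M, (hull q s ⊆ hull q t ↔ s ⊆ t))
    (C : Cplx m) (hC : C.members = (fun s => hull q s) '' (M : Set (Finset ι)))
    (D : Cplx n) (hD : CombEquiv C D) :
    ∃ p : ι → EuclideanSpace ℝ (Fin n), Rlz M p := by
  classical
  obtain ⟨e, he⟩ := hD
  have hmem : ∀ s ∈ M, hull q s ∈ C.members := fun s hs => by rw [hC]; exact ⟨s, hs, rfl⟩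
  -- images of the members
  let Q : (s : Finset ι) → Set (EuclideanSpace ℝ (Fin n)) := fun s =>
    if h : s ∈ M then (e ⟨hull q s, hmem s h⟩).1 else ∅
  have hQ : ∀ s (h : s ∈ M), Q s = (e ⟨hull q s, hmem s h⟩).1 := fun s h => dif_pos h
  have hQmem : ∀ s ∈ M, Q s ∈ D.members := fun s hs => by
    rw [hQ s hs]; exact (e ⟨hull q s, hmem s hs⟩).2
  have hQsub : ∀ s ∈ M, ∀ t ∈ M, (Q s ⊆ Q t ↔ s ⊆ t) := by
    intro s hs t ht
    rw [hQ s hs, hQ t ht, ← he, ← hsub s hs t ht]
  have hQsurj : ∀ F ∈ D.members, ∃ s ∈ M, F = Q s := by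
    intro F hF
    obtain ⟨⟨P, hP⟩, hPe⟩ := e.surjective ⟨F, hF⟩
    rw [hC] at hP
    obtain ⟨s, hs, hsP⟩ := hP
    refine ⟨s, hs, ?_⟩
    rw [hQ s hs]
    have : (⟨hull q s, hmem s hs⟩ : C.members) = ⟨P, by rw [hC]; exact ⟨s, hs, hsP⟩⟩ := Subtype.ext hsP
    rw [this, hPe]
  have hpoly : ∀ s ∈ M, ∃ t : Finset (EuclideanSpace ℝ (Fin n)), t.Nonempty ∧
      Q s = convexHull ℝ (t : Set _) := fun s hs => D.polytope _ (hQmem s hs)
  -- vertices
  have hvert : ∀ i : ι, ∃ x, Q {i} = {x} := by
    intro i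
    obtain ⟨t, htn, ht⟩ := hpoly {i} (hsing i)
    obtain ⟨z, hz⟩ := htn
    have hz' : z ∈ Q {i} := by rw [ht]; exact subset_convexHull ℝ _ hz
    have h1 := polytope_vertices (Q {i}) t ht z hz'
    obtain ⟨x, hx⟩ : {x | IsFace {x} (Q {i})}.Nonempty := by
      rw [Set.nonempty_iff_ne_empty]
      intro h
      rw [h, convexHull_empty] at h1
      exact h1
    have hx2 : {x} ∈ D.members := D.face_mem _ (hQmem _ (hsing i)) _ hx
    obtain ⟨s, hs, hsx⟩ := hQsurj _ hx2
    have h2 : Q s ⊆ Q {i} := by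
      rw [← hsx]
      exact hx.2.subset
    rw [hQsub s hs _ (hsing i)] at h2
    have h3 : s = {i} := by
      obtain ⟨j, hj⟩ := hne s hs
      apply Finset.Subset.antisymm h2
      rw [Finset.singleton_subset_iff, ← Finset.mem_singleton.mp (h2 hj)]
      exact hj
    refine ⟨x, ?_⟩
    rw [← h3, ← hsx]
  choose p hp using hvert
  -- members are hulls
  have hhull : ∀ s ∈ M, Q s = hull p s := by
    intro s hs
    obtain ⟨t, _, ht⟩ := hpoly s hs
    apply Set.Subset.antisymm
    · intro z hz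
      have h1 := polytope_vertices (Q s) t ht z hz
      have h2 : {x | IsFace {x} (Q s)} ⊆ p '' (s : Set ι) := by
        intro x hx
        have hx2 : {x} ∈ D.members := D.face_mem _ (hQmem _ hs) _ hx
        obtain ⟨r, hr, hrx⟩ := hQsurj _ hx2
        have h3 : Q r ⊆ Q s := by rw [← hrx]; exact hx.2.subset
        rw [hQsub r hr s hs] at h3
        obtain ⟨j, hj⟩ := hne r hr
        refine ⟨j, h3 hj, ?_⟩
        have h4 : Q {j} ⊆ Q r := by
          rw [hQsub _ (hsing j) r hr, Finset.singleton_subset_iff]; exact hj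
        rw [hp j, ← hrx] at h4
        exact h4 rfl
      exact convexHull_mono h2 h1
    · apply convexHull_min
      · rintro _ ⟨i, hi, rfl⟩
        have h4 : Q {i} ⊆ Q s := by
          rw [hQsub _ (hsing i) s hs, Finset.singleton_subset_iff]; exact hi
        rw [hp i] at h4
        exact h4 rfl
      · rw [ht]; exact convex_convexHull ℝ _
  refine ⟨p, ?_, ?_, ?_, ?_⟩
  · intro i j hij
    have h1 : Q {i} ⊆ Q {j} := by rw [hp i, hp j, hij]
    rw [hQsub _ (hsing i) _ (hsing j), Finset.singleton_subset_iff, Finset.mem_singleton] at h1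
    exact h1
  · intro s hs t ht hts
    rw [← hhull s hs, ← hhull t ht]
    have h1 : Q t ⊆ Q s := (hQsub t ht s hs).mpr hts
    have h2 : Q t ∩ Q s = Q t := Set.inter_eq_left.mpr h1
    have h3 : (Q t ∩ Q s).Nonempty := by
      rw [h2, hhull t ht]
      obtain ⟨i, hi⟩ := hne t ht
      exact ⟨p i, vertex_mem_hull p hi⟩
    have h4 := (D.inter _ (hQmem t ht) _ (hQmem s hs) h3).2
    rw [h2] at h4
    exact h4
  · intro s hs F hF
    rw [← hhull s hs] at hF
    obtain ⟨t, ht, hFt⟩ := hQsurj F (D.face_mem _ (hQmem s hs) F hF)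
    refine ⟨t, ht, ?_, ?_⟩
    · rw [← hQsub t ht s hs, ← hFt]
      exact hF.2.subset
    · rw [hFt, hhull t ht]
  · intro s hs t ht z hzs hzt
    rw [← hhull s hs] at hzs
    rw [← hhull t ht] at hzt
    have h1 := (D.inter _ (hQmem s hs) _ (hQmem t ht) ⟨z, hzs, hzt⟩).1
    obtain ⟨r, hr, hFr⟩ := hQsurj _ (D.face_mem _ (hQmem s hs) _ h1)
    refine ⟨r, hr, ?_, ?_, ?_⟩
    · rw [← hQsub r hr s hs, ← hFr]
      exact Set.inter_subset_left
    · rw [← hQsub r hr t ht, ← hFr]
      exact Set.inter_subset_right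
    · rw [← hhull r hr, ← hFr]
      exact ⟨hzs, hzt⟩

end part0

section part5

open Set

/-! ### Certified configurations -/

/-- a configuration of points together with an abstract complex which it realises -/
structure Cert {ι E : Type} [DecidableEq ι] [AddCommGroup E] [Module ℝ E]
    (M : Finset (Finset ι)) (p : ι → E) : Prop where
  ne : ∀ s ∈ M, s.Nonempty
  sing : ∀ i : ι, {i} ∈ M
  cap : ∀ s ∈ M, ∀ t ∈ M, (s ∩ t).Nonempty → s ∩ t ∈ M
  expose : ∀ s ∈ M, ∀ t ∈ M, t ⊆ s → ∃ (f : E →ₗ[ℝ] ℝ) (c : ℝ), (∀ i ∈ t, f (p i) = c) ∧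
    (∀ i ∈ s, i ∉ t → f (p i) < c)
  inter : ∀ s ∈ M, ∀ t ∈ M, ∀ z, z ∈ convexHull ℝ (p '' (s : Set ι)) →
    z ∈ convexHull ℝ (p '' (t : Set ι)) → z ∈ convexHull ℝ (p '' ((s ∩ t : Finset ι) : Set ι))
  arg : ∀ s ∈ M, ∀ (f : E →ₗ[ℝ] ℝ) (c : ℝ), (∀ i ∈ s, f (p i) ≤ c) → (∃ i ∈ s, f (p i) = c) →
    ∃ t ∈ M, t ⊆ s ∧ ∀ i ∈ s, (f (p i) = c ↔ i ∈ t)
  inj : Function.Injective p

variable {ι E : Type} [DecidableEq ι] [NormedAddCommGroup E] [InnerProductSpace ℝ E]
  [FiniteDimensional ℝ E]

lemma Cert.vertex_mem {M : Finset (Finset ι)} {p : ι → E} (h : Cert M p) {s : Finset ι} (hs : s ∈ M)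
    {i : ι} (hi : p i ∈ hull p s) : i ∈ s := by
  have h1 := h.inter {i} (h.sing i) s hs (p i) (vertex_mem_hull p (Finset.mem_singleton_self i)) hi
  obtain ⟨j, hj⟩ := hull_nonempty (p := p) h1
  rw [Finset.mem_inter, Finset.mem_singleton] at hj
  rw [← hj.1]
  exact hj.2

lemma Cert.face {M : Finset (Finset ι)} {p : ι → E} (h : Cert M p) {s t : Finset ι} (hs : s ∈ M)
    (ht : t ∈ M) (hts : t ⊆ s) : IsFace (hull p t) (hull p s) := by
  obtain ⟨f, c, hf1, hf2⟩ := h.expose s hs t ht hts
  obtain ⟨j, hj⟩ := h.ne t ht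
  refine ⟨⟨p j, vertex_mem_hull p hj⟩, fun _ => ⟨LinearMap.toContinuousLinearMap f, ?_⟩⟩
  have hle : ∀ i ∈ s, f (p i) ≤ c := by
    intro i hi
    by_cases hit : i ∈ t
    · rw [hf1 i hit]
    · exact (hf2 i hi hit).le
  ext x
  constructor
  · intro hx
    refine ⟨hull_mono p hts hx, fun y hy => ?_⟩
    show f y ≤ f x
    have h1 : f y ≤ c := le_on_hull f c hle hy
    have h2 : (-f) x ≤ -c := le_on_hull (-f) (-c) (fun i hi => by
      rw [LinearMap.neg_apply, hf1 i hi]) hx
    rw [LinearMap.neg_apply] at h2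
    linarith
  · rintro ⟨hx1, hx2⟩
    have h1 : f (p j) ≤ f x := hx2 (p j) (vertex_mem_hull p (hts hj))
    rw [hf1 j hj] at h1
    exact mem_hull_of_eq hts f c hf2 hf1 hx1 (le_antisymm (le_on_hull f c hle hx1) h1)

lemma Cert.face' {M : Finset (Finset ι)} {p : ι → E} (h : Cert M p) {s : Finset ι} (hs : s ∈ M)
    (F : Set E) (hF : IsFace F (hull p s)) : ∃ t ∈ M, t ⊆ s ∧ F = hull p t := by
  obtain ⟨hne, hexp⟩ := hF
  obtain ⟨l, hl⟩ := hexp hne
  obtain ⟨i0, hi0, hmax⟩ := Finset.exists_max_image s (fun i => l (p i)) (h.ne s hs)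
  obtain ⟨t, ht, hts, ht'⟩ := h.arg s hs l.toLinearMap (l (p i0)) hmax ⟨i0, hi0, rfl⟩
  refine ⟨t, ht, hts, ?_⟩
  have hle : ∀ y ∈ hull p s, l y ≤ l (p i0) := fun y hy =>
    le_on_hull l.toLinearMap (l (p i0)) hmax hy
  rw [hl]
  ext x
  constructor
  · rintro ⟨hx1, hx2⟩
    refine mem_hull_of_eq hts l.toLinearMap (l (p i0)) ?_ ?_ hx1
      (le_antisymm (hle x hx1) (hx2 _ (vertex_mem_hull p hi0)))
    · intro i hi hit
      exact lt_of_le_of_ne (hmax i hi) (fun h1 => hit ((ht' i hi).mp h1))
    · intro i hi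
      exact (ht' i (hts hi)).mpr hi
  · intro hx
    refine ⟨hull_mono p hts hx, fun y hy => ?_⟩
    have h2 : (-l.toLinearMap) x ≤ -(l (p i0)) := le_on_hull (-l.toLinearMap) _ (fun i hi => by
      rw [LinearMap.neg_apply]
      have := (ht' i (hts hi)).mpr hi
      linarith) hx
    rw [LinearMap.neg_apply] at h2
    have h3 : l (p i0) ≤ l x := by
      have : (l.toLinearMap) x = l x := rfl
      linarith
    exact (hle y hy).trans h3

/-- a certified configuration is a realisation -/
lemma Cert.real {M : Finset (Finset ι)} {p : ι → E} (h : Cert M p) : Rlz M p := by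
  refine ⟨h.inj, fun s hs t ht hts => h.face hs ht hts, fun s hs F hF => h.face' hs F hF, ?_⟩
  intro s hs t ht z hz1 hz2
  have h1 := h.inter s hs t ht z hz1 hz2
  exact ⟨s ∩ t, h.cap s hs t ht (hull_nonempty (p := p) h1), Finset.inter_subset_left,
    Finset.inter_subset_right, h1⟩

lemma Cert.sub_iff {M : Finset (Finset ι)} {p : ι → E} (h : Cert M p) {s t : Finset ι} (hs : s ∈ M)
    (ht : t ∈ M) : hull p s ⊆ hull p t ↔ s ⊆ t :=
  ⟨fun h1 i hi => h.vertex_mem ht (h1 (vertex_mem_hull p hi)), fun h1 => hull_mono p h1⟩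

/-- the complex of a certified configuration -/
noncomputable def Cert.cplx {n : ℕ} {M : Finset (Finset ι)} {p : ι → EuclideanSpace ℝ (Fin n)}
    (h : Cert M p) : Cplx n where
  members := (fun s => hull p s) '' (M : Set (Finset ι))
  finite := M.finite_toSet.image _
  polytope := by
    classical
    rintro _ ⟨s, hs, rfl⟩
    refine ⟨s.image p, (h.ne s hs).image p, ?_⟩
    rw [Finset.coe_image]
    rfl
  face_mem := by
    rintro _ ⟨s, hs, rfl⟩ F hF
    obtain ⟨t, ht, _, rfl⟩ := h.face' hs F hF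
    exact ⟨t, ht, rfl⟩
  inter := by
    rintro _ ⟨s, hs, rfl⟩ _ ⟨t, ht, rfl⟩ ⟨z, hz1, hz2⟩
    have h1 := h.inter s hs t ht z hz1 hz2
    have hM := h.cap s hs t ht (hull_nonempty (p := p) h1)
    have heq : hull p s ∩ hull p t = hull p (s ∩ t) := by
      apply Set.Subset.antisymm
      · rintro x ⟨hx1, hx2⟩
        exact h.inter s hs t ht x hx1 hx2
      · exact Set.subset_inter (hull_mono p Finset.inter_subset_left)
          (hull_mono p Finset.inter_subset_right)
    show IsFace (hull p s ∩ hull p t) (hull p s) ∧ IsFace (hull p s ∩ hull p t) (hull p t)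
    rw [heq]
    exact ⟨h.face hs hM Finset.inter_subset_left, h.face ht hM Finset.inter_subset_right⟩

end part5


abbrev E3 := EuclideanSpace ℝ (Fin 3)

section part9

open Set

/-! ### There is no injective continuous map from the sphere to the plane -/

/-- retraction of the plane to the unit disc -/
noncomputable def rd (z : ℂ) : ℂ := ((1 / max 1 ‖z‖ : ℝ) : ℂ) * z

lemma rd_norm (z : ℂ) : ‖rd z‖ ≤ 1 := by
  unfold rd
  have h1 : 0 < max 1 ‖z‖ := lt_of_lt_of_le one_pos (le_max_left _ _)
  rw [norm_mul, Complex.norm_real, Real.norm_eq_abs, abs_of_pos (by positivity), one_div,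
    inv_mul_le_iff₀ h1, mul_one]
  exact le_max_right _ _

lemma rd_cont : Continuous rd := by
  unfold rd
  have h1 : Continuous (fun z : ℂ => (1 / max 1 ‖z‖ : ℝ)) := by
    apply Continuous.div continuous_const (continuous_const.max continuous_norm)
    intro z
    exact (lt_of_lt_of_le one_pos (le_max_left _ _)).ne'
  exact (Complex.continuous_ofReal.comp h1).mul continuous_id

lemma rd_circle {z : ℂ} (hz : ‖z‖ = 1) : rd z = z := by
  unfold rd
  rw [hz, max_self]
  simp

/-- the upper hemisphere -/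
noncomputable def hs (z : ℂ) : E3 := !₂[(rd z).re, (rd z).im, Real.sqrt (1 - ‖rd z‖ ^ 2)]

lemma hs_norm (z : ℂ) : ‖hs z‖ = 1 := by
  rw [EuclideanSpace.norm_eq, Fin.sum_univ_three]
  show Real.sqrt (‖(rd z).re‖ ^ 2 + ‖(rd z).im‖ ^ 2 + ‖Real.sqrt (1 - ‖rd z‖ ^ 2)‖ ^ 2) = 1
  have h1 : ‖rd z‖ ^ 2 = (rd z).re ^ 2 + (rd z).im ^ 2 := by
    rw [← Complex.normSq_eq_norm_sq, Complex.normSq_apply]; ring
  have h2 : 0 ≤ 1 - ‖rd z‖ ^ 2 := by
    have := rd_norm z
    have := norm_nonneg (rd z)
    nlinarith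
  rw [Real.norm_eq_abs, Real.norm_eq_abs, Real.norm_eq_abs, sq_abs, sq_abs, sq_abs,
    Real.sq_sqrt h2, h1]
  rw [show (rd z).re ^ 2 + (rd z).im ^ 2 + (1 - ((rd z).re ^ 2 + (rd z).im ^ 2)) = 1 by ring,
    Real.sqrt_one]

lemma hs_cont : Continuous hs := by
  unfold hs
  apply (PiLp.continuous_toLp 2 _).comp
  apply continuous_pi
  intro i
  fin_cases i
  · exact Complex.continuous_re.comp rd_cont
  · exact Complex.continuous_im.comp rd_cont
  · exact Real.continuous_sqrt.comp (continuous_const.sub (rd_cont.norm.pow 2))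

lemma hs_neg {z : ℂ} (hz : ‖z‖ = 1) : hs (-z) = - hs z := by
  have hz' : ‖-z‖ = 1 := by rw [norm_neg]; exact hz
  unfold hs
  rw [rd_circle hz, rd_circle hz', hz, hz']
  ext i
  fin_cases i <;> simp

theorem no_sphere_embedding (f : E3 → ℂ) (hf : ContinuousOn f (Metric.sphere 0 1))
    (hinj : Set.InjOn f (Metric.sphere 0 1)) : False := by
  have hmem : ∀ z, hs z ∈ Metric.sphere (0 : E3) 1 := fun z => by
    rw [mem_sphere_zero_iff_norm]; exact hs_norm z
  have hmem' : ∀ z, -hs z ∈ Metric.sphere (0 : E3) 1 := fun z => by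
    rw [mem_sphere_zero_iff_norm, norm_neg]; exact hs_norm z
  let G : C(ℂ, ℂ) := ⟨fun z => f (hs z) - f (-hs z),
    (hf.comp_continuous hs_cont hmem).sub (hf.comp_continuous hs_cont.neg hmem')⟩
  have hG : ∀ z, G z ∈ ({0}ᶜ : Set ℂ) := by
    intro z h0
    have h1 : f (hs z) = f (-hs z) := sub_eq_zero.mp h0
    have h2 := hinj (hmem z) (hmem' z) h1
    have h3 : hs z = 0 := by
      have h4 : (2 : ℝ) • hs z = 0 := by
        rw [two_smul]
        nth_rewrite 2 [h2]
        abel
      rcases smul_eq_zero.mp h4 with h5 | h5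
      · norm_num at h5
      · exact h5
    have h4 := hs_norm z
    rw [h3, norm_zero] at h4
    exact zero_ne_one h4
  obtain ⟨F, ⟨_, hF⟩, _⟩ := Complex.isCoveringMapOn_exp.existsUnique_continuousMap_lifts G
    (a₀ := 0) (e₀ := Complex.log (G 0)) (Complex.exp_log (hG 0)) hG
  have hF' : ∀ z, Complex.exp (F z) = G z := fun z => congrFun hF z
  let e : ℝ → ℂ := fun t => Complex.exp (t * Complex.I)
  have he : ∀ t, ‖e t‖ = 1 := fun t => Complex.norm_exp_ofReal_mul_I t
  have hec : Continuous e := by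
    apply Complex.continuous_exp.comp
    exact Complex.continuous_ofReal.mul continuous_const
  let u : ℝ → ℂ := fun t => F (-(e t)) - F (e t)
  have hu : Continuous u := (F.continuous.comp hec.neg).sub (F.continuous.comp hec)
  have hint : ∀ t, ∃ n : ℤ, (u t).im = Real.pi + n * (2 * Real.pi) := by
    intro t
    have h1 : Complex.exp (u t) = Complex.exp (Real.pi * Complex.I) := by
      show Complex.exp (F (-(e t)) - F (e t)) = _
      rw [Complex.exp_sub, hF', hF', Complex.exp_pi_mul_I]
      show (f (hs (-(e t))) - f (-hs (-(e t)))) / (f (hs (e t)) - f (-hs (e t))) = -1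
      rw [hs_neg (he t), neg_neg]
      have h2 : f (hs (e t)) - f (-hs (e t)) ≠ 0 := hG (e t)
      field_simp
      ring
    obtain ⟨n, hn⟩ := Complex.exp_eq_exp_iff_exists_int.mp h1
    refine ⟨n, ?_⟩
    rw [hn]
    simp
  have hpi : ∀ t, u (t + Real.pi) = - u t := by
    intro t
    have h1 : e (t + Real.pi) = - e t := by
      show Complex.exp (((t + Real.pi : ℝ) : ℂ) * Complex.I) = - Complex.exp (t * Complex.I)
      rw [Complex.ofReal_add, add_mul, Complex.exp_add, Complex.exp_pi_mul_I]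
      ring
    show F (-(e (t + Real.pi))) - F (e (t + Real.pi)) = -(F (-(e t)) - F (e t))
    rw [h1, neg_neg]
    ring
  -- intermediate value
  have him : Continuous (fun t => (u t).im) := Complex.continuous_im.comp hu
  obtain ⟨t, ht⟩ : ∃ t, (u t).im = 0 := by
    have h1 : (u (0 + Real.pi)).im = -(u 0).im := by rw [hpi]; rfl
    rcases le_total (u 0).im 0 with h2 | h2
    · exact mem_range_of_exists_le_of_exists_ge him ⟨0, h2⟩ ⟨0 + Real.pi, by rw [h1]; linarith⟩
    · exact mem_range_of_exists_le_of_exists_ge him ⟨0 + Real.pi, by rw [h1]; linarith⟩ ⟨0, h2⟩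
  obtain ⟨n, hn⟩ := hint t
  rw [ht] at hn
  have h1 : Real.pi * (1 + 2 * n) = 0 := by linarith
  rcases mul_eq_zero.mp h1 with h2 | h2
  · exact Real.pi_ne_zero h2
  · have : (1 + 2 * n : ℤ) = 0 := by exact_mod_cast h2
    omega

end part9

lemma combEquiv_refl {n : ℕ} (C : Cplx n) : CombEquiv C C := ⟨Equiv.refl _, fun P Q => Iff.rfl⟩

/-- an injective continuous map from a space of dimension at most two to the plane -/
noncomputable def toC {m : ℕ} (v : EuclideanSpace ℝ (Fin m)) : ℂ :=
  ⟨if h : 0 < m then v ⟨0, h⟩ else 0, if h : 1 < m then v ⟨1, h⟩ else 0⟩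

lemma toC_inj {m : ℕ} (hm : m ≤ 2) : Function.Injective (toC (m := m)) := by
  intro v w hvw
  have h1 := congrArg Complex.re hvw
  have h2 := congrArg Complex.im hvw
  ext i
  obtain ⟨i, hi⟩ := i
  have hi2 : i = 0 ∨ i = 1 := by omega
  rcases hi2 with rfl | rfl
  · simp only [toC] at h1
    rw [dif_pos hi, dif_pos hi] at h1
    exact h1
  · simp only [toC] at h2
    rw [dif_pos hi, dif_pos hi] at h2
    exact h2

lemma toC_cont {m : ℕ} : Continuous (toC (m := m)) := by
  have h1 : Continuous (fun v : EuclideanSpace ℝ (Fin m) => (if h : 0 < m then v ⟨0, h⟩ else 0 : ℝ)) := by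
    split_ifs with h
    · exact (EuclideanSpace.proj (𝕜 := ℝ) (⟨0, h⟩ : Fin m)).continuous
    · exact continuous_const
  have h2 : Continuous (fun v : EuclideanSpace ℝ (Fin m) => (if h : 1 < m then v ⟨1, h⟩ else 0 : ℝ)) := by
    split_ifs with h
    · exact (EuclideanSpace.proj (𝕜 := ℝ) (⟨1, h⟩ : Fin m)).continuous
    · exact continuous_const
  have h3 : (toC (m := m)) = fun v => Complex.equivRealProdCLM.symm
      ((if h : 0 < m then v ⟨0, h⟩ else 0 : ℝ), (if h : 1 < m then v ⟨1, h⟩ else 0 : ℝ)) := by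
    funext v
    rfl
  rw [h3]
  exact Complex.equivRealProdCLM.symm.continuous.comp (h1.prodMk h2)

section Abs

open Finset Pool.Agent.H129.CX.Moments Pool.Agent.H129.CX.Exists Pool.Agent.H129.CX.Proper

section basis

variable {V : Type} [Fintype V] [DecidableEq V]

/-- the basis vector of `v` -/
noncomputable def bv (v : V) : EuclideanSpace ℝ (Fin (Fintype.card V)) :=
  EuclideanSpace.single (Fintype.equivFin V v) 1

/-- the coordinate of `v` -/
noncomputable def cd (x : EuclideanSpace ℝ (Fin (Fintype.card V))) (v : V) : ℝ :=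
  x (Fintype.equivFin V v)

lemma cd_bv (u v : V) : cd (bv u) v = if u = v then 1 else 0 := by
  unfold cd bv
  rw [EuclideanSpace.single_apply]
  by_cases h : u = v
  · rw [if_pos h, if_pos (by rw [h])]
  · rw [if_neg h, if_neg (fun h1 => h ((Fintype.equivFin V).injective h1).symm)]

lemma cd_ext {x y : EuclideanSpace ℝ (Fin (Fintype.card V))} (h : ∀ v, cd x v = cd y v) :
    x = y := by
  ext i
  have := h ((Fintype.equivFin V).symm i)
  unfold cd at this
  rwa [Equiv.apply_symm_apply] at this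

lemma cd_sum {ι : Type} (s : Finset ι) (w : ι → ℝ)
    (p : ι → EuclideanSpace ℝ (Fin (Fintype.card V))) (v : V) :
    cd (∑ i ∈ s, w i • p i) v = ∑ i ∈ s, w i * cd (p i) v := by
  unfold cd
  simp [Finset.sum_apply]

lemma cd_cont (v : V) : Continuous (fun x : EuclideanSpace ℝ (Fin (Fintype.card V)) => cd x v) :=
  (EuclideanSpace.proj (𝕜 := ℝ) (Fintype.equivFin V v)).continuous

/-- barycentric coordinates of points of the face `s` -/
def Bary (s : Finset V) (y : V → ℝ) : Prop :=
  (∀ v, 0 ≤ y v) ∧ ∑ v, y v = 1 ∧ ∀ v, v ∉ s → y v = 0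

lemma mem_hull_bv (s : Finset V) (x : EuclideanSpace ℝ (Fin (Fintype.card V))) :
    x ∈ hull bv s ↔ Bary s (cd x) := by
  rw [mem_hull_iff]
  constructor
  · rintro ⟨w, hw0, hw1, rfl⟩
    have h : ∀ v, cd (∑ i ∈ s, w i • bv i) v = if v ∈ s then w v else 0 := by
      intro v
      rw [cd_sum]
      simp only [cd_bv, mul_ite, mul_one, mul_zero]
      rw [Finset.sum_ite_eq']
    refine ⟨?_, ?_, ?_⟩
    · intro v
      rw [h]
      split_ifs with hv
      · exact hw0 v hv
      · exact le_rfl
    · simp only [h]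
      rw [← Finset.sum_filter, Finset.filter_mem_eq_inter, Finset.univ_inter]
      exact hw1
    · intro v hv
      rw [h, if_neg hv]
  · rintro ⟨h0, h1, h2⟩
    refine ⟨cd x, fun i _ => h0 i, ?_, ?_⟩
    · rw [← h1]
      exact Finset.sum_subset (Finset.subset_univ s) (fun v _ hv => h2 v hv)
    · apply cd_ext
      intro v
      rw [cd_sum]
      simp only [cd_bv, mul_ite, mul_one, mul_zero]
      rw [Finset.sum_ite_eq']
      split_ifs with hv
      · rfl
      · exact (h2 v hv).symm

/-- the functional adding the coordinates in `t` -/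
noncomputable def fsum (t : Finset V) : EuclideanSpace ℝ (Fin (Fintype.card V)) →ₗ[ℝ] ℝ where
  toFun x := ∑ v ∈ t, cd x v
  map_add' x y := by
    rw [← Finset.sum_add_distrib]
    rfl
  map_smul' c x := by
    rw [RingHom.id_apply, smul_eq_mul, Finset.mul_sum]
    rfl

theorem basis_cert (M : Finset (Finset V)) (hne : ∀ s ∈ M, s.Nonempty) (hsing : ∀ v : V, {v} ∈ M)
    (hdown : ∀ s ∈ M, ∀ t, t ⊆ s → t.Nonempty → t ∈ M) : Cert M (bv (V := V)) where
  ne := hne
  sing := hsing
  cap := fun s hs t _ h => hdown s hs _ Finset.inter_subset_left h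
  expose := by
    intro s _ t _ _
    refine ⟨fsum t, 1, ?_, ?_⟩
    · intro i hi
      show ∑ v ∈ t, cd (bv i) v = 1
      simp only [cd_bv]
      rw [Finset.sum_ite_eq, if_pos hi]
    · intro i _ hi
      show ∑ v ∈ t, cd (bv i) v < 1
      simp only [cd_bv]
      rw [Finset.sum_ite_eq, if_neg hi]
      exact one_pos
  inter := by
    intro s _ t _ z h1 h2
    have h1' := (mem_hull_bv s z).1 h1
    have h2' := (mem_hull_bv t z).1 h2
    refine (mem_hull_bv (s ∩ t) z).2 ⟨h1'.1, h1'.2.1, ?_⟩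
    intro v hv
    rw [Finset.mem_inter, not_and_or] at hv
    rcases hv with hv | hv
    · exact h1'.2.2 v hv
    · exact h2'.2.2 v hv
  arg := by
    classical
    intro s hs f c _ hex
    obtain ⟨i, hi, hic⟩ := hex
    refine ⟨s.filter (fun i => f (bv i) = c), ?_, Finset.filter_subset _ _, ?_⟩
    · exact hdown s hs _ (Finset.filter_subset _ _) ⟨i, Finset.mem_filter.2 ⟨hi, hic⟩⟩
    · intro j hj
      rw [Finset.mem_filter]
      exact ⟨fun h => ⟨hj, h⟩, fun h => h.2⟩
  inj := by
    intro u v huv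
    by_contra hne
    have h := cd_bv u v
    rw [huv, cd_bv, if_pos rfl, if_neg hne] at h
    exact one_ne_zero h

theorem bv_affineIndependent : AffineIndependent ℝ (bv : V → EuclideanSpace ℝ (Fin (Fintype.card V))) := by
  rw [affineIndependent_iff]
  intro s w _ hw e he
  have h := congrArg (fun x => cd x e) hw
  simp only [cd_sum, cd_bv, mul_ite, mul_one, mul_zero] at h
  rw [Finset.sum_ite_eq', if_pos he] at h
  rw [h]
  rfl

theorem bv_simplex (s : Finset V) (hs : s.Nonempty) :
    ∃ t : Finset (EuclideanSpace ℝ (Fin (Fintype.card V))), t.Nonempty ∧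
    AffineIndependent ℝ ((↑) : t → EuclideanSpace ℝ (Fin (Fintype.card V))) ∧
      hull bv s = convexHull ℝ (t : Set _) := by
  classical
  refine ⟨s.image bv, hs.image bv, ?_, ?_⟩
  · refine (bv_affineIndependent (V := V)).range.mono ?_
    rw [Finset.coe_image]
    exact Set.image_subset_range _ _
  · rw [Finset.coe_image]
    rfl

theorem finrank_hull (s : Finset V) (hs : s.card ≤ 3) (hs0 : s.Nonempty) :
    Module.finrank ℝ (vectorSpan ℝ (hull (bv : V → _) s)) ≤ 2 := by
  have h1 : vectorSpan ℝ (hull (bv : V → EuclideanSpace ℝ (Fin (Fintype.card V))) s) =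
      vectorSpan ℝ ((bv : V → EuclideanSpace ℝ (Fin (Fintype.card V))) '' (s : Set V)) := by
    unfold hull
    rw [← direction_affineSpan, affineSpan_convexHull, direction_affineSpan]
  rw [h1]
  have h2 : ((bv : V → EuclideanSpace ℝ (Fin (Fintype.card V))) '' (s : Set V)) =
      ((s.image bv : Finset _) : Set (EuclideanSpace ℝ (Fin (Fintype.card V)))) := by
    rw [Finset.coe_image]
  have h3 := finrank_vectorSpan_image_finset_le ℝ (bv : V → EuclideanSpace ℝ (Fin (Fintype.card V)))
    s (n := s.card - 1) (by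
      have := hs0.card_pos
      omega)
  rw [Finset.coe_image] at h3
  omega

end basis

end Abs

section Upper

open Finset Pool.Agent.H129.CX.Moments Pool.Agent.H129.CX.Exists Pool.Agent.H129.CX.Proper

/-- the main vertices -/
abbrev W (N : ℕ) := Vt (Fin N) (Fin N) (Fin (3 * N))

/-- all vertices -/
abbrev U (N : ℕ) := W N ⊕ Fin 4

variable {N : ℕ} (g : Fin N × Fin N → Fin (3 * N))

/-- the vertices of the triangle of the cell `p` -/
def T (p : Fin N × Fin N) : Finset (U N) :=
  {Sum.inl (Sum.inl p.1), Sum.inl (Sum.inr (Sum.inl p.2)), Sum.inl (Sum.inr (Sum.inr (g p)))}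

/-- the vertices of a facet of the extra tetrahedron -/
def R (N : ℕ) (i : Fin 4) : Finset (U N) := (univ.erase i).image Sum.inr

open Classical in
/-- the abstract complex -/
noncomputable def M : Finset (Finset (U N)) :=
  univ.filter (fun s => s.Nonempty ∧ ((∃ p, s ⊆ T g p) ∨ (∃ i, s ⊆ R N i) ∨ s.card = 1))

lemma mem_M {s : Finset (U N)} : s ∈ M g ↔
    s.Nonempty ∧ ((∃ p, s ⊆ T g p) ∨ (∃ i, s ⊆ R N i) ∨ s.card = 1) := by
  unfold M
  rw [mem_filter]
  simp

lemma M_ne : ∀ s ∈ M g, s.Nonempty := fun s hs => ((mem_M g).1 hs).1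

lemma M_sing : ∀ v : U N, {v} ∈ M g := fun v =>
  (mem_M g).2 ⟨singleton_nonempty v, Or.inr (Or.inr (card_singleton v))⟩

lemma M_down : ∀ s ∈ M g, ∀ t, t ⊆ s → t.Nonempty → t ∈ M g := by
  intro _ hs t hts ht
  rw [mem_M] at hs ⊢
  refine ⟨ht, ?_⟩
  rcases hs.2 with ⟨p, hp⟩ | ⟨i, hi⟩ | h
  · exact Or.inl ⟨p, hts.trans hp⟩
  · exact Or.inr (Or.inl ⟨i, hts.trans hi⟩)
  · right; right
    have h1 := card_le_card hts
    have h2 := ht.card_pos
    omega

lemma M_card : ∀ s ∈ M g, s.card ≤ 3 := by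
  intro s hs
  rw [mem_M] at hs
  rcases hs.2 with ⟨p, hp⟩ | ⟨i, hi⟩ | h
  · exact (card_le_card hp).trans card_le_three
  · refine (card_le_card hi).trans (card_image_le.trans ?_)
    rw [card_erase_of_mem (mem_univ i)]
    simp
  · omega

lemma cert : Cert (M g) (bv (V := U N)) := basis_cert (M g) (M_ne g) (M_sing g) (M_down g)

/-- the complex -/
noncomputable def CC : Cplx (Fintype.card (U N)) := (cert g).cplx

lemma CC_members : (CC g).members = (fun s => hull bv s) '' (M g : Set (Finset (U N))) := rfl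

lemma CC_two : IsTwoComplex (CC g) := by
  rintro _ ⟨s, hs, rfl⟩
  exact finrank_hull s (M_card g s hs) (M_ne g s hs)

lemma CC_support (x : EuclideanSpace ℝ (Fin (Fintype.card (U N)))) :
    x ∈ (CC g).support ↔ ∃ s ∈ M g, Bary s (cd x) := by
  unfold Cplx.support
  rw [CC_members, Set.mem_sUnion]
  constructor
  · rintro ⟨_, ⟨s, hs, rfl⟩, hx⟩
    exact ⟨s, hs, (mem_hull_bv s x).1 hx⟩
  · rintro ⟨s, hs, hx⟩
    exact ⟨_, ⟨s, hs, rfl⟩, (mem_hull_bv s x).2 hx⟩

lemma CC_compact : IsCompact (CC g).support := by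
  unfold Cplx.support
  refine Set.Finite.isCompact_sUnion (CC g).finite ?_
  rintro _ ⟨s, hs, rfl⟩
  exact isCompact_hull _ _

/-! ### The embedding in three dimensional space -/

/-- the second elementary symmetric polynomial of the coordinates of the triangle of `p` -/
def e2 (p : Fin N × Fin N) (y : U N → ℝ) : ℝ :=
  y (Sum.inl (Sum.inl p.1)) * y (Sum.inl (Sum.inr (Sum.inl p.2))) +
    y (Sum.inl (Sum.inr (Sum.inl p.2))) * y (Sum.inl (Sum.inr (Sum.inr (g p)))) +
    y (Sum.inl (Sum.inr (Sum.inr (g p)))) * y (Sum.inl (Sum.inl p.1))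

/-- the parameters on the parabola -/
noncomputable def tt (v : W N) : ℝ := ((Fintype.equivFin (W N) v : ℕ) : ℝ)

lemma tt_sep (u w : W N) (h : u ≠ w) : 1 ≤ (tt u - tt w) ^ 2 := by
  unfold tt
  have h1 : (Fintype.equivFin (W N) u : ℕ) ≠ (Fintype.equivFin (W N) w : ℕ) := by
    intro h2
    exact h ((Fintype.equivFin (W N)).injective (Fin.ext h2))
  have h3 : (1 : ℤ) ≤ (((Fintype.equivFin (W N) u : ℕ) : ℤ) -
      ((Fintype.equivFin (W N) w : ℕ) : ℤ)) ^ 2 := by
    have h4 : (((Fintype.equivFin (W N) u : ℕ) : ℤ) - ((Fintype.equivFin (W N) w : ℕ) : ℤ)) ≠ 0 := by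
      omega
    have h5 := sq_pos_of_ne_zero h4 (R := ℤ)
    omega
  exact_mod_cast h3

lemma tt_le (u w : W N) : (tt u - tt w) ^ 2 ≤ (Fintype.card (W N) : ℝ) ^ 2 := by
  unfold tt
  have h1 : ((Fintype.equivFin (W N) u : ℕ) : ℝ) ≤ Fintype.card (W N) := by
    exact_mod_cast (Fintype.equivFin (W N) u).2.le
  have h2 : ((Fintype.equivFin (W N) w : ℕ) : ℝ) ≤ Fintype.card (W N) := by
    exact_mod_cast (Fintype.equivFin (W N) w).2.le
  have h3 : (0 : ℝ) ≤ ((Fintype.equivFin (W N) u : ℕ) : ℝ) := Nat.cast_nonneg _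
  have h4 : (0 : ℝ) ≤ ((Fintype.equivFin (W N) w : ℕ) : ℝ) := Nat.cast_nonneg _
  apply sq_le_sq'
  · linarith
  · linarith

/-- the base of the powers -/
noncomputable def KK (N : ℕ) : ℝ := 2 * (Fintype.card (W N) : ℝ) ^ 2 + 1

/-- the number of a triangle -/
noncomputable def ix (p : Fin N × Fin N) : ℕ := (Fintype.equivFin (Fin N × Fin N) p : ℕ)

lemma ix_inj {p q : Fin N × Fin N} (h : ix p = ix q) : p = q :=
  (Fintype.equivFin (Fin N × Fin N)).injective (Fin.ext h)

/-- the height -/
noncomputable def ht (y : U N → ℝ) : ℝ :=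
  ∑ p : Fin N × Fin N, KK N ^ ix p * e2 g p y

/-- the part of a coordinate vector on the main vertices -/
def mn (y : U N → ℝ) : W N → ℝ := fun v => y (Sum.inl v)

lemma sum_U (y : U N → ℝ) : ∑ v, y v = ∑ v, mn y v + ∑ i, y (Sum.inr i) := Fintype.sum_sum_type y

/-- points of the main part -/
structure MainPt (y : U N → ℝ) : Prop where
  prb : Prb (mn y)
  zero : ∀ i : Fin 4, y (Sum.inr i) = 0

lemma mainPt_of_bary {s : Finset (U N)} (hs : ∀ i : Fin 4, Sum.inr i ∉ s) {y : U N → ℝ}
    (h : Bary s y) : MainPt y := by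
  have h1 : ∀ i : Fin 4, y (Sum.inr i) = 0 := fun i => h.2.2 _ (hs i)
  refine ⟨⟨fun v => h.1 _, ?_⟩, h1⟩
  have h2 := h.2.1
  rw [sum_U, Finset.sum_eq_zero (fun i _ => h1 i), add_zero] at h2
  exact h2

lemma T_inr (p : Fin N × Fin N) (i : Fin 4) : (Sum.inr i : U N) ∉ T g p := by
  simp [T]

lemma e2_ne (hg : Proper g) {p q : Fin N × Fin N} (hpq : q ≠ p) {y : U N → ℝ}
    (h : Bary (T g p) y) : e2 g q y = 0 := by
  have hz := h.2.2
  unfold e2
  by_cases h1 : q.1 = p.1
  · have h2 : q.2 ≠ p.2 := fun h2 => hpq (Prod.ext h1 h2)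
    have h3 : g q ≠ g p := hg q p hpq (Or.inl h1)
    have h4 : y (Sum.inl (Sum.inr (Sum.inl q.2))) = 0 := hz _ (by simp [T, h2])
    have h5 : y (Sum.inl (Sum.inr (Sum.inr (g q)))) = 0 := hz _ (by simp [T, h3])
    rw [h4, h5]; ring
  · have h4 : y (Sum.inl (Sum.inl q.1)) = 0 := hz _ (by simp [T, h1])
    by_cases h2 : q.2 = p.2
    · have h3 : g q ≠ g p := hg q p hpq (Or.inr h2)
      have h5 : y (Sum.inl (Sum.inr (Sum.inr (g q)))) = 0 := hz _ (by simp [T, h3])
      rw [h4, h5]; ring
    · have h5 : y (Sum.inl (Sum.inr (Sum.inl q.2))) = 0 := hz _ (by simp [T, h2])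
      rw [h4, h5]; ring

lemma sum_three {p : Fin N × Fin N} (f : W N → ℝ)
    (h : ∀ v, v ≠ Sum.inl p.1 → v ≠ Sum.inr (Sum.inl p.2) → v ≠ Sum.inr (Sum.inr (g p)) → f v = 0) :
    ∑ v, f v = f (Sum.inl p.1) + f (Sum.inr (Sum.inl p.2)) + f (Sum.inr (Sum.inr (g p))) := by
  have h1 : ∑ v ∈ ({Sum.inl p.1, Sum.inr (Sum.inl p.2), Sum.inr (Sum.inr (g p))} : Finset (W N)),
      f v = ∑ v, f v := by
    apply Finset.sum_subset (Finset.subset_univ _)
    intro v _ hv
    simp only [Finset.mem_insert, Finset.mem_singleton, not_or] at hv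
    exact h v hv.1 hv.2.1 hv.2.2
  rw [← h1, Finset.sum_insert (by simp), Finset.sum_insert (by simp), Finset.sum_singleton]
  ring

lemma T_zero {p : Fin N × Fin N} {y : U N → ℝ} (h : Bary (T g p) y) (v : W N)
    (h1 : v ≠ Sum.inl p.1) (h2 : v ≠ Sum.inr (Sum.inl p.2)) (h3 : v ≠ Sum.inr (Sum.inr (g p))) :
    mn y v = 0 := by
  refine h.2.2 _ ?_
  simp only [T, Finset.mem_insert, Finset.mem_singleton, not_or, Sum.inl.injEq]
  exact ⟨h1, h2, h3⟩

lemma e2_self {p : Fin N × Fin N} {y : U N → ℝ} (h : Bary (T g p) y) :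
    e2 g p y = qf (mn y) := by
  have h1 := (mainPt_of_bary (T_inr g p) h).prb.2
  rw [sum_three g (p := p) (mn y) (fun v a b c => T_zero g h v a b c)] at h1
  unfold qf
  rw [sum_three g (p := p) (fun v => mn y v ^ 2) (fun v a b c => by
    show mn y v ^ 2 = 0
    rw [T_zero g h v a b c]; ring)]
  unfold e2
  show mn y _ * mn y _ + mn y _ * mn y _ + mn y _ * mn y _ = _
  have h2 : (mn y (Sum.inl p.1) + mn y (Sum.inr (Sum.inl p.2)) +
      mn y (Sum.inr (Sum.inr (g p)))) ^ 2 = 1 := by rw [h1]; norm_num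
  linarith

lemma ht_T (hg : Proper g) {p : Fin N × Fin N} {y : U N → ℝ} (h : Bary (T g p) y) :
    ht g y = KK N ^ ix p * qf (mn y) := by
  unfold ht
  rw [Finset.sum_eq_single p, e2_self g h]
  · intro q _ hq
    rw [e2_ne g hg hq h, mul_zero]
  · intro h1
    exact absurd (mem_univ p) h1

lemma sing_zero {v : U N} {y : U N → ℝ} (h : Bary {v} y) (u : U N) (hu : u ≠ v) : y u = 0 :=
  h.2.2 u (by rwa [mem_singleton])

lemma ht_sing {v : U N} {y : U N → ℝ} (h : Bary {v} y) : ht g y = 0 := by
  unfold ht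
  refine Finset.sum_eq_zero fun p _ => ?_
  have key : ∀ a b : U N, a ≠ b → y a * y b = 0 := by
    intro a b hab
    by_cases ha : a = v
    · have hb : b ≠ v := fun hb => hab (ha.trans hb.symm)
      rw [sing_zero h b hb, mul_zero]
    · rw [sing_zero h a ha, zero_mul]
  unfold e2
  rw [key _ _ (by simp), key _ _ (by simp), key _ _ (by simp)]
  ring

lemma qf_sing {v : W N} {y : U N → ℝ} (h : Bary {Sum.inl v} y) : qf (mn y) = 0 := by
  have h0 : ∀ u : W N, u ≠ v → mn y u = 0 := fun u hu => sing_zero h _ (by simpa using hu)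
  have h1 := (mainPt_of_bary (by simp) h).prb.2
  rw [Finset.sum_eq_single v (fun u _ hu => h0 u hu) (fun h => absurd (mem_univ v) h)] at h1
  unfold qf
  rw [Finset.sum_eq_single v (fun u _ hu => by rw [h0 u hu]; ring)
    (fun h => absurd (mem_univ v) h), h1]
  ring

/-! ### The map -/

/-- the coordinates of the map -/
noncomputable def F0 (y : U N → ℝ) : ℝ := ∑ v, mn y v * tt v + y (Sum.inr 1)

noncomputable def F1 (y : U N → ℝ) : ℝ := ∑ v, mn y v * tt v ^ 2 + y (Sum.inr 2)

noncomputable def F2 (y : U N → ℝ) : ℝ := ht g y - ∑ i : Fin 4, y (Sum.inr i) - y (Sum.inr 3)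

/-- the map into three dimensional space -/
noncomputable def FF (x : EuclideanSpace ℝ (Fin (Fintype.card (U N)))) : E3 :=
  !₂[F0 (cd x), F1 (cd x), F2 g (cd x)]

lemma FF_cont : Continuous (FF g) := by
  have hc : ∀ v : U N, Continuous (fun x : EuclideanSpace ℝ (Fin (Fintype.card (U N))) => cd x v) :=
    cd_cont
  unfold FF
  apply (PiLp.continuous_toLp 2 _).comp
  apply continuous_pi
  intro i
  fin_cases i
  · show Continuous (fun x : EuclideanSpace ℝ (Fin (Fintype.card (U N))) => F0 (cd x))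
    unfold F0 mn
    exact (continuous_finsetSum _ fun v _ => (hc _).mul continuous_const).add (hc _)
  · show Continuous (fun x : EuclideanSpace ℝ (Fin (Fintype.card (U N))) => F1 (cd x))
    unfold F1 mn
    exact (continuous_finsetSum _ fun v _ => (hc _).mul continuous_const).add (hc _)
  · show Continuous (fun x : EuclideanSpace ℝ (Fin (Fintype.card (U N))) => F2 g (cd x))
    unfold F2 ht e2
    exact ((continuous_finsetSum _ fun p _ => continuous_const.mul
      ((((hc _).mul (hc _)).add ((hc _).mul (hc _))).add ((hc _).mul (hc _)))).sub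
        (continuous_finsetSum _ fun v _ => hc _)).sub (hc _)

lemma FF_eq {x x' : EuclideanSpace ℝ (Fin (Fintype.card (U N)))} (h : FF g x = FF g x') :
    F0 (cd x) = F0 (cd x') ∧ F1 (cd x) = F1 (cd x') ∧ F2 g (cd x) = F2 g (cd x') := by
  refine ⟨?_, ?_, ?_⟩
  · exact congrArg (fun z : E3 => z 0) h
  · exact congrArg (fun z : E3 => z 1) h
  · exact congrArg (fun z : E3 => z 2) h

lemma main_F0 {y : U N → ℝ} (h : MainPt y) : F0 y = ∑ v, mn y v * tt v := by
  unfold F0
  rw [h.zero, add_zero]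

lemma main_F1 {y : U N → ℝ} (h : MainPt y) : F1 y = ∑ v, mn y v * tt v ^ 2 := by
  unfold F1
  rw [h.zero, add_zero]

lemma main_F2 {y : U N → ℝ} (h : MainPt y) : F2 g y = ht g y := by
  unfold F2
  rw [h.zero, Finset.sum_eq_zero (fun i _ => h.zero i), sub_zero, sub_zero]

lemma main_ext {y y' : U N → ℝ} (h : MainPt y) (h' : MainPt y') (he : mn y = mn y') : y = y' := by
  funext v
  rcases v with v | i
  · exact congrFun he v
  · rw [h.zero, h'.zero]

/-- the kinds of points -/
inductive Kind (y : U N → ℝ) : Prop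
  | tri (p : Fin N × Fin N) (h : Bary (T g p) y) : Kind y
  | sing (v : W N) (h : Bary {Sum.inl v} y) : Kind y
  | tet (i : Fin 4) (h : Bary (R N i) y) : Kind y

lemma bary_mono {s t : Finset (U N)} (h : s ⊆ t) {y : U N → ℝ} (hy : Bary s y) : Bary t y :=
  ⟨hy.1, hy.2.1, fun v hv => hy.2.2 v (fun h1 => hv (h h1))⟩

lemma kind_of {s : Finset (U N)} (hs : s ∈ M g) {y : U N → ℝ} (hy : Bary s y) : Kind g y := by
  rw [mem_M] at hs
  rcases hs.2 with ⟨p, hp⟩ | ⟨i, hi⟩ | h
  · exact Kind.tri p (bary_mono hp hy)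
  · exact Kind.tet i (bary_mono hi hy)
  · obtain ⟨v, rfl⟩ := card_eq_one.1 h
    rcases v with v | j
    · exact Kind.sing v hy
    · refine Kind.tet (j + 1) (bary_mono ?_ hy)
      rw [singleton_subset_iff]
      unfold R
      rw [mem_image]
      refine ⟨j, mem_erase.2 ⟨?_, mem_univ j⟩, rfl⟩
      fin_cases j <;> decide

lemma sing_inr (v : W N) (i : Fin 4) : (Sum.inr i : U N) ∉ ({Sum.inl v} : Finset (U N)) := by
  simp

lemma one_le_KK : 1 ≤ KK N := by
  unfold KK
  have : (0 : ℝ) ≤ 2 * (Fintype.card (W N) : ℝ) ^ 2 := by positivity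
  linarith

lemma main_ht_nonneg (hg : Proper g) {y : U N → ℝ} (hm : MainPt y) (hk : Kind g y) :
    0 ≤ F2 g y := by
  rw [main_F2 g hm]
  rcases hk with ⟨p, h⟩ | ⟨v, h⟩ | ⟨i, h⟩
  · rw [ht_T g hg h]
    exact mul_nonneg (pow_nonneg (zero_le_one.trans one_le_KK) _) (qf_nonneg hm.prb)
  · rw [ht_sing g h]
  · exfalso
    have h1 := h.2.1
    rw [sum_U] at h1
    rw [Finset.sum_eq_zero (fun i _ => hm.zero i), add_zero] at h1
    rw [Finset.sum_eq_zero] at h1
    · exact zero_ne_one h1
    · intro v _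
      refine h.2.2 _ ?_
      simp [R]

/-- points of the tetrahedron -/
lemma tet_data {i : Fin 4} {y : U N → ℝ} (h : Bary (R N i) y) :
    (∀ v, mn y v = 0) ∧ ∑ i : Fin 4, y (Sum.inr i) = 1 ∧ ht g y = 0 := by
  have h0 : ∀ v : W N, mn y v = 0 := fun v => h.2.2 _ (by simp [R])
  refine ⟨h0, ?_, ?_⟩
  · have h1 := h.2.1
    rw [sum_U, Finset.sum_eq_zero (fun v _ => h0 v), zero_add] at h1
    exact h1
  · unfold ht
    refine Finset.sum_eq_zero fun p _ => ?_
    unfold e2
    show _ * (mn y _ * mn y _ + mn y _ * mn y _ + mn y _ * mn y _) = 0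
    rw [h0, h0, h0]
    ring

lemma tet_neg {i : Fin 4} {y : U N → ℝ} (h : Bary (R N i) y) : F2 g y < 0 := by
  obtain ⟨_, h2, h3⟩ := tet_data g h
  unfold F2
  rw [h2, h3]
  have := h.1 (Sum.inr 3)
  linarith

lemma tet_inj {i i' : Fin 4} {y y' : U N → ℝ} (h : Bary (R N i) y) (h' : Bary (R N i') y')
    (e0 : F0 y = F0 y') (e1 : F1 y = F1 y') (e2 : F2 g y = F2 g y') : y = y' := by
  obtain ⟨a1, a2, a3⟩ := tet_data g h
  obtain ⟨b1, b2, b3⟩ := tet_data g h'
  unfold F0 at e0
  unfold F1 at e1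
  unfold F2 at e2
  rw [Finset.sum_eq_zero (fun v _ => by rw [a1 v, zero_mul]),
    Finset.sum_eq_zero (fun v _ => by rw [b1 v, zero_mul])] at e0 e1
  rw [a2, a3, b2, b3] at e2
  rw [Fin.sum_univ_four] at a2 b2
  have c1 : y (Sum.inr 1) = y' (Sum.inr 1) := by linarith
  have c2 : y (Sum.inr 2) = y' (Sum.inr 2) := by linarith
  have c3 : y (Sum.inr 3) = y' (Sum.inr 3) := by linarith
  have c0 : y (Sum.inr 0) = y' (Sum.inr 0) := by linarith
  funext v
  rcases v with v | j
  · exact (a1 v).trans (b1 v).symm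
  · fin_cases j
    · exact c0
    · exact c1
    · exact c2
    · exact c3

lemma main_lt (hg : Proper g) {p p' : Fin N × Fin N} {y y' : U N → ℝ} (h : Bary (T g p) y)
    (h' : Bary (T g p') y') (hp : ix p < ix p') (e0 : F0 y = F0 y') (e1 : F1 y = F1 y')
    (e2 : F2 g y = F2 g y') : y = y' := by
  have hm := mainPt_of_bary (T_inr g p) h
  have hm' := mainPt_of_bary (T_inr g p') h'
  rw [main_F0 hm, main_F0 hm'] at e0
  rw [main_F1 hm, main_F1 hm'] at e1
  rw [main_F2 g hm, main_F2 g hm', ht_T g hg h, ht_T g hg h'] at e2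
  have hq := qf_le hm.prb hm'.prb e0 e1 tt_sep tt_le (by positivity)
  have hK := one_le_KK (N := N)
  have hKp : 0 < KK N ^ ix p := pow_pos (lt_of_lt_of_le one_pos hK) _
  obtain ⟨d, hd⟩ := Nat.exists_eq_add_of_lt hp
  have e3 : KK N ^ ix p' = KK N ^ ix p * (KK N ^ d * KK N) := by
    rw [hd]
    ring
  rw [e3, mul_assoc] at e2
  have e4 := mul_left_cancel₀ hKp.ne' e2
  have h0 := qf_nonneg hm'.prb
  have e5 : KK N * qf (mn y') ≤ qf (mn y) := by
    rw [e4]
    have h1 : 1 ≤ KK N ^ d := one_le_pow₀ hK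
    have h2 : 0 ≤ KK N * qf (mn y') := mul_nonneg (by linarith) h0
    nlinarith
  have e6 : qf (mn y') = 0 := by
    unfold KK at e5
    nlinarith
  exact main_ext hm hm' (eq_of_qf_zero hm.prb hm'.prb e0 e1 tt_sep tt_le e6)

lemma main_inj (hg : Proper g) {y y' : U N → ℝ} (hm : MainPt y) (hm' : MainPt y') (hk : Kind g y)
    (hk' : Kind g y') (e0 : F0 y = F0 y') (e1 : F1 y = F1 y')
    (e2 : F2 g y = F2 g y') : y = y' := by
  have e0' := e0
  have e1' := e1
  rw [main_F0 hm, main_F0 hm'] at e0'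
  rw [main_F1 hm, main_F1 hm'] at e1'
  rcases hk' with ⟨p', h'⟩ | ⟨v', h'⟩ | ⟨i', h'⟩
  · rcases hk with ⟨p, h⟩ | ⟨v, h⟩ | ⟨i, h⟩
    · by_cases hpp : p = p'
      · subst hpp
        refine main_ext hm hm' ?_
        exact eq_of_three (Sum.inl p.1) (Sum.inr (Sum.inl p.2)) (Sum.inr (Sum.inr (g p)))
          (by simp) (by simp) (by simp) (T_zero g h) (T_zero g h') hm.prb hm'.prb e0' e1' tt_sep
      · rcases lt_trichotomy (ix p) (ix p') with hlt | heq | hlt
        · exact main_lt g hg h h' hlt e0 e1 e2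
        · exact absurd (ix_inj heq) hpp
        · exact (main_lt g hg h' h hlt e0.symm e1.symm e2.symm).symm
    · exact (main_ext hm' hm (eq_of_qf_zero hm'.prb hm.prb e0'.symm e1'.symm tt_sep tt_le
        (qf_sing h))).symm
    · exfalso
      have h1 := tet_neg g h
      have h2 := main_ht_nonneg g hg hm (Kind.tet i h)
      linarith
  · exact main_ext hm hm' (eq_of_qf_zero hm.prb hm'.prb e0' e1' tt_sep tt_le (qf_sing h'))
  · exfalso
    have h1 := tet_neg g h'
    have h2 := main_ht_nonneg g hg hm' (Kind.tet i' h')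
    linarith

lemma kind_main {y : U N → ℝ} (hk : Kind g y) : MainPt y ∨ ∃ i, Bary (R N i) y := by
  rcases hk with ⟨p, h⟩ | ⟨v, h⟩ | ⟨i, h⟩
  · exact Or.inl (mainPt_of_bary (T_inr g p) h)
  · exact Or.inl (mainPt_of_bary (sing_inr v) h)
  · exact Or.inr ⟨i, h⟩

lemma FF_inj (hg : Proper g) {x x' : EuclideanSpace ℝ (Fin (Fintype.card (U N)))}
    (hx : x ∈ (CC g).support) (hx' : x' ∈ (CC g).support) (h : FF g x = FF g x') : x = x' := by
  obtain ⟨s, hs, hxs⟩ := (CC_support g x).1 hx
  obtain ⟨s', hs', hxs'⟩ := (CC_support g x').1 hx'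
  obtain ⟨e0, e1, e2⟩ := FF_eq g h
  have hk := kind_of g hs hxs
  have hk' := kind_of g hs' hxs'
  have key : cd x = cd x' := by
    rcases kind_main g hk with hm | ⟨i, hi⟩
    · rcases kind_main g hk' with hm' | ⟨i', hi'⟩
      · exact main_inj g hg hm hm' hk hk' e0 e1 e2
      · exfalso
        have h1 := tet_neg g hi'
        have h2 := main_ht_nonneg g hg hm hk
        linarith
    · rcases kind_main g hk' with hm' | ⟨i', hi'⟩
      · exfalso
        have h1 := tet_neg g hi
        have h2 := main_ht_nonneg g hg hm' hk'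
        linarith
      · exact tet_inj g hi hi' e0 e1 e2
  exact cd_ext (fun v => congrFun key v)

theorem CC_a_upper (hg : Proper g) :
    ∃ T : Set (EuclideanSpace ℝ (Fin 3)), Nonempty ((CC g).support ≃ₜ T) := by
  let Φ : (CC g).support → E3 := fun x => FF g x.1
  have hΦ : Continuous Φ := (FF_cont g).comp continuous_subtype_val
  have hinj : Function.Injective Φ := by
    rintro ⟨x, hx⟩ ⟨y, hy⟩ hxy
    exact Subtype.ext (FF_inj g hg hx hy hxy)
  have : CompactSpace (CC g).support := isCompact_iff_compactSpace.mp (CC_compact g)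
  have hemb := (hΦ.isClosedEmbedding hinj).isEmbedding
  exact ⟨Set.range Φ, ⟨hemb.toHomeomorph⟩⟩

end Upper

section Lower

open Finset Pool.Agent.H129.CX.Moments Pool.Agent.H129.CX.Exists Pool.Agent.H129.CX.Proper

variable {N : ℕ} (g : Fin N × Fin N → Fin (3 * N))

/-! ### The lower bound for `a` -/

/-- the four linear forms -/
noncomputable def el (x : E3) : Fin 4 → ℝ := ![x 0, x 1, x 2, -(x 0 + x 1 + x 2)]

/-- minus the minimum of the four linear forms -/
noncomputable def mu (x : E3) : ℝ := max (max (-(x 0)) (-(x 1))) (max (-(x 2)) (x 0 + x 1 + x 2))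

lemma el_ge (x : E3) (i : Fin 4) : 0 ≤ el x i + mu x := by
  have h1 : -(x 0) ≤ mu x := (le_max_left _ _).trans (le_max_left _ _)
  have h2 : -(x 1) ≤ mu x := (le_max_right _ _).trans (le_max_left _ _)
  have h3 : -(x 2) ≤ mu x := (le_max_left _ _).trans (le_max_right _ _)
  have h4 : x 0 + x 1 + x 2 ≤ mu x := (le_max_right _ _).trans (le_max_right _ _)
  fin_cases i
  · show 0 ≤ x 0 + mu x
    linarith
  · show 0 ≤ x 1 + mu x
    linarith
  · show 0 ≤ x 2 + mu x
    linarith
  · show 0 ≤ -(x 0 + x 1 + x 2) + mu x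
    linarith

lemma el_eq (x : E3) : ∃ i, el x i + mu x = 0 := by
  have h : mu x = -(x 0) ∨ mu x = -(x 1) ∨ mu x = -(x 2) ∨ mu x = x 0 + x 1 + x 2 := by
    unfold mu
    rcases max_choice (max (-(x 0)) (-(x 1))) (max (-(x 2)) (x 0 + x 1 + x 2)) with h | h
    · rcases max_choice (-(x 0)) (-(x 1)) with h' | h'
      · left; rw [h, h']
      · right; left; rw [h, h']
    · rcases max_choice (-(x 2)) (x 0 + x 1 + x 2) with h' | h'
      · right; right; left; rw [h, h']
      · right; right; right; rw [h, h']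
  rcases h with h | h | h | h
  · refine ⟨0, ?_⟩
    show x 0 + mu x = 0
    linarith
  · refine ⟨1, ?_⟩
    show x 1 + mu x = 0
    linarith
  · refine ⟨2, ?_⟩
    show x 2 + mu x = 0
    linarith
  · refine ⟨3, ?_⟩
    show -(x 0 + x 1 + x 2) + mu x = 0
    linarith

lemma el_sum (x : E3) : ∑ i, el x i = 0 := by
  rw [Fin.sum_univ_four]
  show x 0 + x 1 + x 2 + -(x 0 + x 1 + x 2) = 0
  ring

lemma mu_pos {x : E3} (hx : x ≠ 0) : 0 < mu x := by
  have h1 : -(x 0) ≤ mu x := (le_max_left _ _).trans (le_max_left _ _)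
  have h2 : -(x 1) ≤ mu x := (le_max_right _ _).trans (le_max_left _ _)
  have h3 : -(x 2) ≤ mu x := (le_max_left _ _).trans (le_max_right _ _)
  have h4 : x 0 + x 1 + x 2 ≤ mu x := (le_max_right _ _).trans (le_max_right _ _)
  by_contra hcon
  push Not at hcon
  apply hx
  have e0 : x 0 = 0 := by linarith
  have e1 : x 1 = 0 := by linarith
  have e2 : x 2 = 0 := by linarith
  ext i
  fin_cases i
  · exact e0
  · exact e1
  · exact e2

lemma mu_cont : Continuous mu := by
  have hc : ∀ i : Fin 3, Continuous (fun x : E3 => x i) := fun i =>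
    (EuclideanSpace.proj (𝕜 := ℝ) i).continuous
  unfold mu
  exact ((hc 0).neg.max (hc 1).neg).max ((hc 2).neg.max (((hc 0).add (hc 1)).add (hc 2)))

lemma el_cont (i : Fin 4) : Continuous (fun x => el x i) := by
  have hc : ∀ i : Fin 3, Continuous (fun x : E3 => x i) := fun i =>
    (EuclideanSpace.proj (𝕜 := ℝ) i).continuous
  fin_cases i
  · exact hc 0
  · exact hc 1
  · exact hc 2
  · exact (((hc 0).add (hc 1)).add (hc 2)).neg

/-- barycentric coordinates on the boundary of the tetrahedron -/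
noncomputable def wt (x : E3) (i : Fin 4) : ℝ := (el x i + mu x) / (4 * mu x)

/-- the point with these coordinates -/
noncomputable def sp (N : ℕ) (x : E3) : EuclideanSpace ℝ (Fin (Fintype.card (U N))) :=
  ∑ i : Fin 4, wt x i • bv (Sum.inr i : U N)

lemma cd_sp (x : E3) (v : U N) : cd (sp N x) v = Sum.elim (fun _ => 0) (wt x) v := by
  unfold sp
  rw [cd_sum]
  simp only [cd_bv]
  rcases v with v | j
  · simp
  · simp

lemma sp_bary {x : E3} (hx : x ≠ 0) : ∃ i, Bary (R N i) (cd (sp N x)) := by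
  obtain ⟨i, hi⟩ := el_eq x
  have hm := mu_pos hx
  refine ⟨i, ?_, ?_, ?_⟩
  · intro v
    rw [cd_sp]
    rcases v with v | j
    · exact le_rfl
    · exact div_nonneg (el_ge x j) (by linarith)
  · simp only [cd_sp]
    rw [sum_U]
    have h1 : ∑ v : W N, mn (fun v : U N => Sum.elim (fun _ => (0 : ℝ)) (wt x) v) v = 0 :=
      Finset.sum_eq_zero fun v _ => rfl
    rw [h1, zero_add]
    show ∑ j, wt x j = 1
    unfold wt
    rw [← Finset.sum_div, Finset.sum_add_distrib, el_sum, zero_add]
    simp only [Finset.sum_const, Finset.card_univ, Fintype.card_fin, nsmul_eq_mul]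
    rw [Nat.cast_ofNat]
    exact div_self (by positivity)
  · intro v hv
    rw [cd_sp]
    rcases v with v | j
    · rfl
    · have hj : j = i := by
        by_contra hne
        apply hv
        unfold R
        rw [mem_image]
        exact ⟨j, mem_erase.2 ⟨hne, mem_univ j⟩, rfl⟩
      show wt x j = 0
      unfold wt
      rw [hj, hi, zero_div]

lemma sp_mem {x : E3} (hx : x ≠ 0) : sp N x ∈ (CC g).support := by
  rw [CC_support]
  obtain ⟨i, hi⟩ := sp_bary (N := N) hx
  refine ⟨R N i, ?_, hi⟩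
  rw [mem_M]
  refine ⟨?_, Or.inr (Or.inl ⟨i, subset_rfl⟩)⟩
  unfold R
  rw [Finset.image_nonempty]
  rw [← Finset.card_pos, card_erase_of_mem (mem_univ i)]
  simp

lemma wt_inj {x y : E3} (hx : ‖x‖ = 1) (hy : ‖y‖ = 1) (h : ∀ i, wt x i = wt y i) : x = y := by
  have hx0 : x ≠ 0 := fun h => by rw [h, norm_zero] at hx; exact zero_ne_one hx
  have hy0 : y ≠ 0 := fun h => by rw [h, norm_zero] at hy; exact zero_ne_one hy
  have hmx := mu_pos hx0
  have hmy := mu_pos hy0
  have key : ∀ i, el x i * mu y = el y i * mu x := by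
    intro i
    have h1 := h i
    unfold wt at h1
    rw [div_eq_div_iff (by positivity) (by positivity)] at h1
    linarith
  have h2 : mu y • x = mu x • y := by
    ext i
    fin_cases i
    · have := key 0
      simp only [PiLp.smul_apply, smul_eq_mul]
      change x 0 * mu y = y 0 * mu x at this
      show mu y * x 0 = mu x * y 0
      linarith
    · have := key 1
      simp only [PiLp.smul_apply, smul_eq_mul]
      change x 1 * mu y = y 1 * mu x at this
      show mu y * x 1 = mu x * y 1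
      linarith
    · have := key 2
      simp only [PiLp.smul_apply, smul_eq_mul]
      change x 2 * mu y = y 2 * mu x at this
      show mu y * x 2 = mu x * y 2
      linarith
  have h3 := congrArg norm h2
  rw [norm_smul, norm_smul, hx, hy, Real.norm_eq_abs, Real.norm_eq_abs, abs_of_pos hmx,
    abs_of_pos hmy, mul_one, mul_one] at h3
  rw [h3] at h2
  exact smul_right_injective _ hmx.ne' h2

theorem CC_a_lower {m : ℕ} (S : Set (EuclideanSpace ℝ (Fin m))) (h : (CC g).support ≃ₜ S) :
    3 ≤ m := by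
  by_contra hcon
  push Not at hcon
  have hne : ∀ x ∈ Metric.sphere (0 : E3) 1, x ≠ 0 := by
    intro x hx h0
    rw [h0, mem_sphere_zero_iff_norm, norm_zero] at hx
    exact zero_ne_one hx
  classical
  let f : E3 → ℂ := fun x => if hx : x ≠ 0 then
    toC (h ⟨_, sp_mem g hx⟩ : EuclideanSpace ℝ (Fin m)) else 0
  have hf : ContinuousOn f (Metric.sphere 0 1) := by
    rw [continuousOn_iff_continuous_domRestrict]
    have h1 : (Metric.sphere (0 : E3) 1).domRestrict f = fun x =>
        toC (h ⟨_, sp_mem g (hne x.1 x.2)⟩ : EuclideanSpace ℝ (Fin m)) := by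
      funext x
      show f x.1 = _
      exact dif_pos (hne x.1 x.2)
    rw [h1]
    apply toC_cont.comp
    apply continuous_subtype_val.comp
    apply h.continuous.comp
    apply Continuous.subtype_mk
    unfold sp
    refine continuous_finsetSum _ fun i _ => ?_
    have hw : ContinuousOn (fun x : E3 => wt x i) (Metric.sphere (0 : E3) 1) := by
      unfold wt
      refine ContinuousOn.div ?_ ?_ ?_
      · exact ((el_cont i).add mu_cont).continuousOn
      · exact (continuous_const.mul mu_cont).continuousOn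
      · intro x hx
        have := mu_pos (hne x hx)
        positivity
    have hw' := continuousOn_iff_continuous_domRestrict.1 hw
    exact Continuous.smul hw' continuous_const
  refine no_sphere_embedding f hf ?_
  intro x hx y hy hxy
  have hx0 := hne x hx
  have hy0 := hne y hy
  have e1 : f x = toC (h ⟨_, sp_mem g hx0⟩ : EuclideanSpace ℝ (Fin m)) := dif_pos hx0
  have e2 : f y = toC (h ⟨_, sp_mem g hy0⟩ : EuclideanSpace ℝ (Fin m)) := dif_pos hy0
  rw [e1, e2] at hxy
  have h1 := toC_inj (by omega) hxy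
  have h2 := h.injective (Subtype.ext h1)
  have h3 : sp N x = sp N y := congrArg Subtype.val h2
  apply wt_inj (mem_sphere_zero_iff_norm.1 hx) (mem_sphere_zero_iff_norm.1 hy)
  intro i
  have h4 := congrArg (fun z => cd z (Sum.inr i : U N)) h3
  simp only [cd_sp] at h4
  exact h4

theorem CC_a (hg : Proper g) : aDim (CC g) = 3 := by
  apply le_antisymm
  · exact Nat.sInf_le (CC_a_upper g hg)
  · apply le_csInf ⟨3, CC_a_upper g hg⟩
    rintro m ⟨S, ⟨h⟩⟩
    exact CC_a_lower g S h

/-! ### The lower bound for `b` -/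

/-- the projection to the first coordinates -/
noncomputable def proj4 {m : ℕ} (hm : m ≤ 4) : (Fin 4 → ℝ) →ₗ[ℝ] EuclideanSpace ℝ (Fin m) where
  toFun z := WithLp.toLp 2 (fun k => z (Fin.castLE hm k))
  map_add' _ _ := rfl
  map_smul' _ _ := rfl

theorem CC_b_aux (hbad : ∀ x : W N × Fin 4 → ℝ, ¬ NoMeet g x) {m : ℕ} (hm : m ≤ 4) (D : Cplx m)
    (hD : CombEquiv (CC g) D) : False := by
  classical
  obtain ⟨p, hp⟩ := real_of_equiv (M g) (bv (V := U N)) (M_ne g) (M_sing g)
    (fun s hs t ht => (cert g).sub_iff hs ht) (CC g) (CC_members g) D hD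
  let x : W N × Fin 4 → ℝ := fun q => if h : (q.2 : ℕ) < m then p (Sum.inl q.1) ⟨q.2, h⟩ else 0
  refine hbad x ?_
  intro a a' h1 h2 h3
  rw [Set.disjoint_left]
  intro z hz hz'
  have hpt : ∀ v : W N, proj4 hm (pt x v) = p (Sum.inl v) := by
    intro v
    ext k
    show x (v, Fin.castLE hm k) = p (Sum.inl v) k
    have hk : ((Fin.castLE hm k : Fin 4) : ℕ) < m := k.2
    show (if h : ((Fin.castLE hm k : Fin 4) : ℕ) < m then p (Sum.inl v) ⟨(Fin.castLE hm k : ℕ), h⟩
      else 0) = p (Sum.inl v) k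
    rw [dif_pos hk]
    rfl
  have hmem : ∀ b : Fin N × Fin N, z ∈ convexHull ℝ (Set.range fun i => pt x (tri g b i)) →
      proj4 hm z ∈ hull p (T g b) := by
    intro b hb
    have h4 : proj4 hm z ∈ proj4 hm '' convexHull ℝ (Set.range fun i => pt x (tri g b i)) :=
      ⟨z, hb, rfl⟩
    rw [LinearMap.image_convexHull] at h4
    refine convexHull_mono ?_ h4
    rintro _ ⟨_, ⟨i, rfl⟩, rfl⟩
    rw [hpt]
    refine ⟨_, ?_, rfl⟩
    rw [mem_coe]
    unfold T
    fin_cases i <;> simp [tri]
  have hT : ∀ b, T g b ∈ M g := fun b => by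
    rw [mem_M]
    exact ⟨⟨_, mem_insert_self _ _⟩, Or.inl ⟨b, subset_rfl⟩⟩
  obtain ⟨r, hr, hr1, hr2, _⟩ := hp.inter _ (hT a) _ (hT a') _ (hmem a hz) (hmem a' hz')
  obtain ⟨v, hv⟩ := M_ne g r hr
  have h5 := hr1 hv
  have h6 := hr2 hv
  unfold T at h5 h6
  simp only [mem_insert, mem_singleton] at h5 h6
  rcases h5 with rfl | rfl | rfl
  · simp [h1] at h6
  · simp [h2] at h6
  · simp [h3] at h6

theorem CC_b (hbad : ∀ x : W N × Fin 4 → ℝ, ¬ NoMeet g x) : 5 ≤ bDim (CC g) := by
  apply le_csInf (show {m : ℕ | ∃ D : Cplx m, CombEquiv (CC g) D}.Nonempty from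
    ⟨_, CC g, combEquiv_refl (CC g)⟩)
  rintro m ⟨D, hD⟩
  by_contra hm
  exact CC_b_aux g hbad (by omega) D hD

end Lower

section Five

open Finset Pool.Agent.H129.CX.Moments Pool.Agent.H129.CX.Exists Pool.Agent.H129.CX.Proper

/-! ### Every simplicial complex of dimension two can be realised in five dimensional space -/

variable {V : Type} [Fintype V] [DecidableEq V]

/-- the parameter -/
noncomputable def tau (v : V) : ℝ := ((Fintype.equivFin V v : ℕ) : ℝ)

omit [DecidableEq V] in
lemma tau_inj : Function.Injective (tau (V := V)) := by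
  intro u v h
  unfold tau at h
  exact (Fintype.equivFin V).injective (Fin.ext (by exact_mod_cast h))

/-- the point of the moment curve -/
noncomputable def mc (v : V) : EuclideanSpace ℝ (Fin 5) :=
  WithLp.toLp 2 (fun k => tau v ^ ((k : ℕ) + 1))

/-- the functional of a polynomial -/
noncomputable def pf (P : Polynomial ℝ) : EuclideanSpace ℝ (Fin 5) →ₗ[ℝ] ℝ where
  toFun x := ∑ k : Fin 5, P.coeff ((k : ℕ) + 1) * x k
  map_add' x y := by
    rw [← Finset.sum_add_distrib]
    refine sum_congr rfl fun k _ => ?_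
    rw [PiLp.add_apply]
    ring
  map_smul' c x := by
    rw [RingHom.id_apply, smul_eq_mul, Finset.mul_sum]
    refine sum_congr rfl fun k _ => ?_
    rw [PiLp.smul_apply, smul_eq_mul]
    ring

omit [DecidableEq V] in
lemma pf_mc (P : Polynomial ℝ) (hP : P.natDegree < 6) (v : V) :
    pf P (mc v) = P.eval (tau v) - P.coeff 0 := by
  rw [Polynomial.eval_eq_sum_range' hP, Finset.sum_range_succ']
  simp only [pow_zero, mul_one, add_sub_cancel_right]
  rw [Finset.sum_range]
  rfl

/-- at most six points of the moment curve are affinely independent -/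
lemma mc_indep (u : Finset V) (hu : u.card ≤ 6) (w : V → ℝ) (h0 : ∑ i ∈ u, w i = 0)
    (h1 : ∑ i ∈ u, w i • mc i = 0) : ∀ i ∈ u, w i = 0 := by
  intro i hi
  set P : Polynomial ℝ := ∏ j ∈ u.erase i, (Polynomial.X - Polynomial.C (tau j)) with hP
  have hdeg : P.natDegree < 6 := by
    rw [hP, Polynomial.natDegree_prod_of_monic _ _ (fun j _ => Polynomial.monic_X_sub_C _)]
    simp only [Polynomial.natDegree_X_sub_C, sum_const, smul_eq_mul, mul_one]
    rw [card_erase_of_mem hi]
    omega
  have h2 : ∑ j ∈ u, w j * P.eval (tau j) = 0 := by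
    have h3 := congrArg (pf P) h1
    rw [map_sum, map_zero] at h3
    simp only [map_smul, smul_eq_mul, pf_mc P hdeg, mul_sub] at h3
    rw [Finset.sum_sub_distrib, ← Finset.sum_mul, h0, zero_mul, sub_zero] at h3
    exact h3
  rw [Finset.sum_eq_single i] at h2
  · rcases mul_eq_zero.1 h2 with h | h
    · exact h
    · exfalso
      rw [hP, Polynomial.eval_prod, Finset.prod_eq_zero_iff] at h
      obtain ⟨j, hj, hj0⟩ := h
      simp only [Polynomial.eval_sub, Polynomial.eval_X, Polynomial.eval_C] at hj0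
      have := tau_inj (sub_eq_zero.1 hj0)
      rw [this] at hj
      exact absurd hj (notMem_erase _ _)
  · intro j hj hji
    rw [hP, Polynomial.eval_prod, Finset.prod_eq_zero (mem_erase.2 ⟨hji, hj⟩), mul_zero]
    simp
  · intro h
    exact absurd hi h

theorem mc_cert (M : Finset (Finset V)) (hne : ∀ s ∈ M, s.Nonempty) (hsing : ∀ v : V, {v} ∈ M)
    (hdown : ∀ s ∈ M, ∀ t, t ⊆ s → t.Nonempty → t ∈ M) (hcard : ∀ s ∈ M, s.card ≤ 3) :
    Cert M (mc (V := V)) where
  ne := hne
  sing := hsing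
  cap := fun s hs t _ h => hdown s hs _ Finset.inter_subset_left h
  expose := by
    intro s hs t _ hts
    have h3 := hcard s hs
    by_cases ht2 : t.card ≤ 2
    · set P : Polynomial ℝ := ∏ j ∈ t, (Polynomial.X - Polynomial.C (tau j)) ^ 2 with hP
      have hdeg : P.natDegree < 6 := by
        rw [hP, Polynomial.natDegree_prod_of_monic _ _
          (fun j _ => (Polynomial.monic_X_sub_C _).pow 2)]
        simp only [Polynomial.natDegree_pow, Polynomial.natDegree_X_sub_C, sum_const, smul_eq_mul]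
        omega
      refine ⟨-pf P, P.coeff 0, ?_, ?_⟩
      · intro i hi
        rw [LinearMap.neg_apply, pf_mc P hdeg]
        have : P.eval (tau i) = 0 := by
          rw [hP, Polynomial.eval_prod, Finset.prod_eq_zero hi]
          simp
        rw [this]
        ring
      · intro i _ hi
        rw [LinearMap.neg_apply, pf_mc P hdeg]
        have : 0 < P.eval (tau i) := by
          rw [hP, Polynomial.eval_prod]
          refine Finset.prod_pos fun j hj => ?_
          simp only [Polynomial.eval_pow, Polynomial.eval_sub, Polynomial.eval_X,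
            Polynomial.eval_C]
          have hne : tau i - tau j ≠ 0 := by
            intro h
            have := tau_inj (sub_eq_zero.1 h)
            rw [this] at hi
            exact hi hj
          positivity
        linarith
    · have hst : s = t := by
        refine (Finset.eq_of_subset_of_card_le hts ?_).symm
        omega
      refine ⟨0, 0, ?_, ?_⟩
      · intro i _
        rfl
      · intro i hi hit
        rw [hst] at hi
        exact absurd hi hit
  inter := by
    intro s hs t ht z h1 h2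
    obtain ⟨w, hw0, hw1, hw2⟩ := (mem_hull_iff mc s z).1 h1
    obtain ⟨w', hw0', hw1', hw2'⟩ := (mem_hull_iff mc t z).1 h2
    have hs3 := hcard s hs
    have ht3 := hcard t ht
    have hu : (s ∪ t).card ≤ 6 := (card_union_le s t).trans (by omega)
    have key := mc_indep (s ∪ t) hu
      (fun i => (if i ∈ s then w i else 0) - (if i ∈ t then w' i else 0)) ?_ ?_
    · refine (mem_hull_iff mc (s ∩ t) z).2 ⟨w, ?_, ?_, ?_⟩
      · intro i hi
        exact hw0 i (mem_of_mem_inter_left hi)
      · rw [← hw1]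
        refine Finset.sum_subset inter_subset_left fun i hi hit => ?_
        have h3 := key i (mem_union_left t hi)
        have h4 : i ∉ t := fun h => hit (mem_inter.2 ⟨hi, h⟩)
        simp only [if_pos hi, if_neg h4, sub_zero] at h3
        exact h3
      · rw [← hw2]
        refine Finset.sum_subset inter_subset_left fun i hi hit => ?_
        have h3 := key i (mem_union_left t hi)
        have h4 : i ∉ t := fun h => hit (mem_inter.2 ⟨hi, h⟩)
        simp only [if_pos hi, if_neg h4, sub_zero] at h3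
        rw [h3, zero_smul]
    · rw [Finset.sum_sub_distrib, ← Finset.sum_filter, ← Finset.sum_filter]
      have e1 : (s ∪ t).filter (fun i => i ∈ s) = s := by
        ext i; simp only [mem_filter, mem_union]; tauto
      have e2 : (s ∪ t).filter (fun i => i ∈ t) = t := by
        ext i; simp only [mem_filter, mem_union]; tauto
      rw [e1, e2, hw1, hw1', sub_self]
    · simp only [sub_smul, ite_smul, zero_smul]
      rw [Finset.sum_sub_distrib, ← Finset.sum_filter, ← Finset.sum_filter]
      have e1 : (s ∪ t).filter (fun i => i ∈ s) = s := by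
        ext i; simp only [mem_filter, mem_union]; tauto
      have e2 : (s ∪ t).filter (fun i => i ∈ t) = t := by
        ext i; simp only [mem_filter, mem_union]; tauto
      rw [e1, e2, hw2, hw2', sub_self]
  arg := by
    classical
    intro s hs f c _ hex
    obtain ⟨i, hi, hic⟩ := hex
    refine ⟨s.filter (fun i => f (mc i) = c), ?_, Finset.filter_subset _ _, ?_⟩
    · exact hdown s hs _ (Finset.filter_subset _ _) ⟨i, Finset.mem_filter.2 ⟨hi, hic⟩⟩
    · intro j hj
      rw [Finset.mem_filter]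
      exact ⟨fun h => ⟨hj, h⟩, fun h => h.2⟩
  inj := by
    intro u v huv
    have h : mc u 0 = mc v 0 := by rw [huv]
    have h' : tau u ^ (0 + 1) = tau v ^ (0 + 1) := h
    rw [zero_add, pow_one, pow_one] at h'
    exact tau_inj h'

/-- two realisations of the same abstract complex are combinatorially equivalent -/
theorem combEquiv_of_cert {m n : ℕ} {M : Finset (Finset V)} {p : V → EuclideanSpace ℝ (Fin m)}
    {q : V → EuclideanSpace ℝ (Fin n)} (hp : Cert M p) (hq : Cert M q) :
    CombEquiv hp.cplx hq.cplx := by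
  have key : ∀ {k : ℕ} {r : V → EuclideanSpace ℝ (Fin k)} (hr : Cert M r),
      Function.Bijective (fun s : M => (⟨hull r s.1, s.1, s.2, rfl⟩ : hr.cplx.members)) := by
    intro k r hr
    constructor
    · intro s t hst
      have h1 : hull r s.1 = hull r t.1 := congrArg Subtype.val hst
      apply Subtype.ext
      apply Finset.Subset.antisymm
      · exact (hr.sub_iff s.2 t.2).1 (by rw [h1])
      · exact (hr.sub_iff t.2 s.2).1 (by rw [h1])
    · rintro ⟨_, s, hs, rfl⟩
      exact ⟨⟨s, hs⟩, rfl⟩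
  let e1 := Equiv.ofBijective _ (key hp)
  let e2 := Equiv.ofBijective _ (key hq)
  refine ⟨e1.symm.trans e2, ?_⟩
  intro P Q
  obtain ⟨s, rfl⟩ := e1.surjective P
  obtain ⟨t, rfl⟩ := e1.surjective Q
  rw [Equiv.trans_apply, Equiv.trans_apply, Equiv.symm_apply_apply, Equiv.symm_apply_apply]
  show hull p s.1 ⊆ hull p t.1 ↔ hull q s.1 ⊆ hull q t.1
  rw [hp.sub_iff s.2 t.2, hq.sub_iff s.2 t.2]

end Five

open Pool.Agent.H129.CX.Exists


/-- There is a simplicial `2`-complex `C` with `a(C) = 3` and `b(C) = 5`. -/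
theorem result : ∃ (n : ℕ) (C : Cplx n),
    IsTwoComplex C ∧ IsSimplicial C ∧ aDim C = 3 ∧ bDim C = 5 := by
  obtain ⟨N, _, g, hg, hbad⟩ := exists_bad
  refine ⟨Fintype.card (U N), CC g, CC_two g, ?_, CC_a g hg, le_antisymm ?_ (CC_b g hbad)⟩
  · rintro _ ⟨s, hs, rfl⟩
    exact bv_simplex s (M_ne g s hs)
  · exact Nat.sInf_le ⟨(mc_cert (M g) (M_ne g) (M_sing g) (M_down g) (M_card g)).cplx,
      combEquiv_of_cert (cert g) (mc_cert (M g) (M_ne g) (M_sing g) (M_down g) (M_card g))⟩

end Pool.Agent.Results.MP_c5a51c_co.SimplicialCounterexample
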